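import Pool.Agent.TH884.KF.Series

/-!
The value at `2` of the numerator of the Hilbert series of a quadratic monomial algebra of
codimension `2`.
-/

set_option autoImplicit false

noncomputable section

namespace Pool.Agent.TH884.KF

open Finset

variable {m : ℕ}

section Exponent

variable {e : Fin m →₀ ℕ} (he : ∑ i, e i = 2)

include he

lemma ex_le (i : Fin m) : e i ≤ 2 := by
  rw [← he]
  exact Finset.single_le_sum (f := fun i => e i) (fun _ _ => Nat.zero_le _) (Finset.mem_univ i)

lemma ex_two {i : Fin m} (hi : e i = 2) {k : Fin m} (hk : k ≠ i) : e k = 0 := by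
  have h1 : e i + ∑ l ∈ Finset.univ.erase i, e l = 2 := by
    rw [Finset.add_sum_erase _ (fun l => e l) (Finset.mem_univ i), he]
  have h2 : e k ≤ ∑ l ∈ Finset.univ.erase i, e l :=
    Finset.single_le_sum (f := fun l => e l) (fun _ _ => Nat.zero_le _)
      (Finset.mem_erase.2 ⟨hk, Finset.mem_univ k⟩)
  omega

lemma ex_one {i k : Fin m} (hki : k ≠ i) (hi : e i = 1) (hk : e k = 1) {l : Fin m} (hl : l ≠ i)
    (hl' : l ≠ k) : e l = 0 := by
  have h1 : e i + ∑ l ∈ Finset.univ.erase i, e l = 2 := by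
    rw [Finset.add_sum_erase _ (fun l => e l) (Finset.mem_univ i), he]
  have h3 : e k + ∑ l ∈ (Finset.univ.erase i).erase k, e l = ∑ l ∈ Finset.univ.erase i, e l :=
    Finset.add_sum_erase _ (fun l => e l) (Finset.mem_erase.2 ⟨hki, Finset.mem_univ k⟩)
  have h2 : e l ≤ ∑ l ∈ (Finset.univ.erase i).erase k, e l :=
    Finset.single_le_sum (f := fun l => e l) (fun _ _ => Nat.zero_le _)
      (Finset.mem_erase.2 ⟨hl', Finset.mem_erase.2 ⟨hl, Finset.mem_univ l⟩⟩)
  omega

lemma ex_exists {i : Fin m} (hi : e i = 1) : ∃ k, k ≠ i ∧ e k = 1 := by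
  have h1 : e i + ∑ l ∈ Finset.univ.erase i, e l = 2 := by
    rw [Finset.add_sum_erase _ (fun l => e l) (Finset.mem_univ i), he]
  have h2 : ∑ l ∈ Finset.univ.erase i, e l ≠ 0 := by omega
  obtain ⟨k, hk, hk0⟩ := Finset.exists_ne_zero_of_sum_ne_zero h2
  have h3 : e k ≤ ∑ l ∈ Finset.univ.erase i, e l :=
    Finset.single_le_sum (f := fun l => e l) (fun _ _ => Nat.zero_le _) hk
  exact ⟨k, Finset.ne_of_mem_erase hk, by omega⟩

end Exponent

/-- The weights at `X = 2`. -/
def wt (t : Fin 3) : ℤ := ![-1, -2, 4] t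

lemma eval_gP (t : Fin 3) : (gP t).eval 2 = wt t := by
  fin_cases t <;> simp [gP, wt]

lemma eval_KP (E : Set (Fin m →₀ ℕ)) : (KP E).eval 2 = ∑ s ∈ States E, ∏ i, wt (s i) := by
  rw [KP, Polynomial.eval_finsetSum]
  refine Finset.sum_congr rfl fun s _ => ?_
  rw [Polynomial.eval_prod]
  exact Finset.prod_congr rfl fun i _ => eval_gP (s i)

/-- The states in terms of a cover of two elements. -/
lemma okS_iff {E : Set (Fin m →₀ ℕ)} (hE : ∀ e ∈ E, ∑ i, e i = 2) {a b : Fin m} (hab : a ≠ b)
    (hcov : ∀ e ∈ E, 1 ≤ e a ∨ 1 ≤ e b) (s : Fin m → Fin 3) :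
    OkS E s ↔ (((∃ e ∈ E, e a = 2) → s a ≠ 2) ∧ ((∃ e ∈ E, e b = 2) → s b ≠ 2) ∧
      ((∃ e ∈ E, e a = 1 ∧ e b = 1) → s a = 0 ∨ s b = 0)) ∧
      ∀ i, i ≠ a → i ≠ b → ((∃ e ∈ E, e a = 1 ∧ e i = 1) ∧ s a ≠ 0 ∨
        (∃ e ∈ E, e b = 1 ∧ e i = 1) ∧ s b ≠ 0) → s i = 0 := by
  have z : ∀ t : Fin 3, (t : ℕ) < 1 ↔ t = 0 := by decide
  have z2 : ∀ t : Fin 3, (t : ℕ) < 2 ↔ t ≠ 2 := by decide
  constructor
  · intro h
    refine ⟨⟨?_, ?_, ?_⟩, ?_⟩
    · rintro ⟨e, he, h2⟩
      obtain ⟨i, hi⟩ := h e he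
      by_cases hia : i = a
      · rw [hia, h2] at hi
        exact (z2 _).1 hi
      · rw [ex_two (hE e he) h2 hia] at hi
        exact absurd hi (Nat.not_lt_zero _)
    · rintro ⟨e, he, h2⟩
      obtain ⟨i, hi⟩ := h e he
      by_cases hia : i = b
      · rw [hia, h2] at hi
        exact (z2 _).1 hi
      · rw [ex_two (hE e he) h2 hia] at hi
        exact absurd hi (Nat.not_lt_zero _)
    · rintro ⟨e, he, h1, h2⟩
      obtain ⟨i, hi⟩ := h e he
      by_cases hia : i = a
      · rw [hia, h1] at hi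
        exact Or.inl ((z _).1 hi)
      · by_cases hib : i = b
        · rw [hib, h2] at hi
          exact Or.inr ((z _).1 hi)
        · rw [ex_one (hE e he) hab.symm h1 h2 hia hib] at hi
          exact absurd hi (Nat.not_lt_zero _)
    · intro k hka hkb hk
      rcases hk with ⟨⟨e, he, h1, h2⟩, hs⟩ | ⟨⟨e, he, h1, h2⟩, hs⟩
      · obtain ⟨i, hi⟩ := h e he
        by_cases hia : i = a
        · rw [hia, h1] at hi
          exact absurd ((z _).1 hi) hs
        · by_cases hik : i = k
          · rw [hik, h2] at hi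
            exact (z _).1 hi
          · rw [ex_one (hE e he) hka h1 h2 hia hik] at hi
            exact absurd hi (Nat.not_lt_zero _)
      · obtain ⟨i, hi⟩ := h e he
        by_cases hib : i = b
        · rw [hib, h1] at hi
          exact absurd ((z _).1 hi) hs
        · by_cases hik : i = k
          · rw [hik, h2] at hi
            exact (z _).1 hi
          · rw [ex_one (hE e he) hkb h1 h2 hib hik] at hi
            exact absurd hi (Nat.not_lt_zero _)
  · rintro ⟨⟨h1, h2, h3⟩, h4⟩ e he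
    have hla := ex_le (hE e he) a
    have hlb := ex_le (hE e he) b
    have hc := hcov e he
    have ca : e a = 0 ∨ e a = 1 ∨ e a = 2 := by omega
    rcases ca with ca | ca | ca
    · have cb : e b = 1 ∨ e b = 2 := by omega
      rcases cb with cb | cb
      · obtain ⟨k, hk, hk1⟩ := ex_exists (hE e he) cb
        have hka : k ≠ a := by
          rintro rfl
          omega
        by_cases hsb : s b = 0
        · refine ⟨b, ?_⟩
          rw [hsb, cb]
          decide
        · refine ⟨k, ?_⟩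
          rw [h4 k hka hk (Or.inr ⟨⟨e, he, cb, hk1⟩, hsb⟩), hk1]
          decide
      · refine ⟨b, ?_⟩
        rw [cb]
        exact (z2 _).2 (h2 ⟨e, he, cb⟩)
    · obtain ⟨k, hk, hk1⟩ := ex_exists (hE e he) ca
      by_cases hkb : k = b
      · subst hkb
        rcases h3 ⟨e, he, ca, hk1⟩ with h | h
        · refine ⟨a, ?_⟩
          rw [h, ca]
          decide
        · refine ⟨k, ?_⟩
          rw [h, hk1]
          decide
      · by_cases hsa : s a = 0
        · refine ⟨a, ?_⟩
          rw [hsa, ca]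
          decide
        · refine ⟨k, ?_⟩
          rw [h4 k hk hkb (Or.inl ⟨⟨e, he, ca, hk1⟩, hsa⟩), hk1]
          decide
    · refine ⟨a, ?_⟩
      rw [ca]
      exact (z2 _).2 (h1 ⟨e, he, ca⟩)

open Classical in
lemma sum_nine (C : Fin 3 → Fin 3 → Prop) (la lb g : Prop)
    (hC : ∀ p q, C p q ↔ (la → p ≠ 2) ∧ (lb → q ≠ 2) ∧ (g → p = 0 ∨ q = 0))
    (N : Prop → Prop → ℤ) (hN : ∀ u v, N u v = 1 ∨ N u v = -1) :
    |∑ p : Fin 3, ∑ q : Fin 3, if C p q then wt p * wt q * N (p ≠ 0) (q ≠ 0) else 0| ≤ 9 := by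
  have e0 : ((0 : Fin 3) ≠ 0) = False := by simp
  have e1 : ((1 : Fin 3) ≠ 0) = True := by simp
  have e2 : ((2 : Fin 3) ≠ 0) = True := by simp
  have c00 : C 0 0 := (hC _ _).2 ⟨fun _ => by decide, fun _ => by decide, fun _ => by decide⟩
  have c01 : C 0 1 := (hC _ _).2 ⟨fun _ => by decide, fun _ => by decide, fun _ => by decide⟩
  have c10 : C 1 0 := (hC _ _).2 ⟨fun _ => by decide, fun _ => by decide, fun _ => by decide⟩
  have c02 : C 0 2 ↔ ¬ lb := by
    rw [hC]
    simp
  have c20 : C 2 0 ↔ ¬ la := by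
    rw [hC]
    simp
  have c11 : C 1 1 ↔ ¬ g := by
    rw [hC]
    simp
  have c12 : C 1 2 ↔ ¬ lb ∧ ¬ g := by
    rw [hC]
    simp
  have c21 : C 2 1 ↔ ¬ la ∧ ¬ g := by
    rw [hC]
    simp
  have c22 : C 2 2 ↔ ¬ la ∧ ¬ lb ∧ ¬ g := by
    rw [hC]
    simp
  simp only [Fin.sum_univ_three, e0, e1, e2, c00, c01, c10, c02, c20, c11, c12, c21, c22, if_true]
  have w0 : wt 0 = -1 := rfl
  have w1 : wt 1 = -2 := rfl
  have w2 : wt 2 = 4 := rfl
  rw [w0, w1, w2, abs_le]
  by_cases h1 : la <;> by_cases h2 : lb <;> by_cases h3 : g <;>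
    simp only [h1, h2, h3, not_true_eq_false, not_false_eq_true, and_true, and_false, true_and,
      false_and, if_true, if_false] <;>
    rcases hN False False with n0 | n0 <;> rcases hN True False with n1 | n1 <;>
    rcases hN False True with n2 | n2 <;> rcases hN True True with n3 | n3 <;>
    simp only [n0, n1, n2, n3] <;> norm_num

/-- The bound for the value at `2`. -/
theorem abs_eval_KP_le {E : Set (Fin m →₀ ℕ)} (hE : ∀ e ∈ E, ∑ i, e i = 2) {a b : Fin m}
    (hab : a ≠ b) (hcov : ∀ e ∈ E, 1 ≤ e a ∨ 1 ≤ e b) : |(KP E).eval 2| ≤ 9 := by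
  classical
  rw [eval_KP]
  -- the conditions
  let la : Prop := ∃ e ∈ E, e a = 2
  let lb : Prop := ∃ e ∈ E, e b = 2
  let g : Prop := ∃ e ∈ E, e a = 1 ∧ e b = 1
  let A : Fin m → Prop := fun i => ∃ e ∈ E, e a = 1 ∧ e i = 1
  let B : Fin m → Prop := fun i => ∃ e ∈ E, e b = 1 ∧ e i = 1
  let C : Fin 3 → Fin 3 → Prop := fun p q => (la → p ≠ 2) ∧ (lb → q ≠ 2) ∧ (g → p = 0 ∨ q = 0)
  let D : Fin 3 → Fin 3 → Fin m → Prop := fun p q i => (A i ∧ p ≠ 0) ∨ (B i ∧ q ≠ 0)
  let t : Fin 3 → Fin 3 → Fin m → Finset (Fin 3) := fun p q i =>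
    if i = a then {p} else if i = b then {q} else if D p q i then {0} else Finset.univ
  have hok : ∀ s : Fin m → Fin 3, OkS E s ↔ C (s a) (s b) ∧
      ∀ i, i ≠ a → i ≠ b → D (s a) (s b) i → s i = 0 := fun s => okS_iff hE hab hcov s
  -- decomposition of the sum
  have h1 : ∑ s ∈ States E, ∏ i, wt (s i) = ∑ p : Fin 3, ∑ q : Fin 3,
      ∑ s ∈ (States E).filter (fun s => s a = p ∧ s b = q), ∏ i, wt (s i) := by
    have e1 : ∀ s : Fin m → Fin 3, (∏ i, wt (s i)) = ∑ p : Fin 3, ∑ q : Fin 3,
        if s a = p ∧ s b = q then ∏ i, wt (s i) else 0 := by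
      intro s
      rw [Finset.sum_eq_single (s a), Finset.sum_eq_single (s b)]
      · simp
      · intro q _ hq
        rw [if_neg (fun h => hq h.2.symm)]
      · simp
      · intro p _ hp
        refine Finset.sum_eq_zero fun q _ => ?_
        rw [if_neg (fun h => hp h.1.symm)]
      · simp
    rw [Finset.sum_congr rfl fun s _ => e1 s, Finset.sum_comm]
    refine Finset.sum_congr rfl fun p _ => ?_
    rw [Finset.sum_comm]
    refine Finset.sum_congr rfl fun q _ => ?_
    rw [Finset.sum_filter]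
  have h2 : ∀ p q : Fin 3, (States E).filter (fun s => s a = p ∧ s b = q) =
      if C p q then Fintype.piFinset (t p q) else ∅ := by
    intro p q
    ext s
    rw [Finset.mem_filter, mem_States, hok]
    by_cases hC : C p q
    · rw [if_pos hC, Fintype.mem_piFinset]
      constructor
      · rintro ⟨⟨_, h4⟩, rfl, rfl⟩ i
        by_cases hia : i = a
        · subst hia
          simp [t]
        · by_cases hib : i = b
          · subst hib
            simp [t, hia]
          · by_cases hD : D (s a) (s b) i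
            · simp only [t, if_neg hia, if_neg hib, if_pos hD, Finset.mem_singleton]
              exact h4 i hia hib hD
            · simp only [t, if_neg hia, if_neg hib, if_neg hD, Finset.mem_univ]
      · intro h
        have ha : s a = p := by
          have := h a
          simpa [t] using this
        have hb : s b = q := by
          have := h b
          simpa [t, hab.symm] using this
        refine ⟨⟨?_, ?_⟩, ha, hb⟩
        · rw [ha, hb]
          exact hC
        · intro i hia hib hD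
          rw [ha, hb] at hD
          have := h i
          simpa only [t, if_neg hia, if_neg hib, if_pos hD, Finset.mem_singleton] using this
    · rw [if_neg hC]
      constructor
      · rintro ⟨⟨h3, _⟩, rfl, rfl⟩
        exact absurd h3 hC
      · intro h
        exact absurd h (Finset.notMem_empty _)
  -- the value of a piece
  let N : Prop → Prop → ℤ := fun u v => ∏ i ∈ (Finset.univ.erase a).erase b,
    if (A i ∧ u) ∨ (B i ∧ v) then (-1 : ℤ) else 1
  have hN : ∀ u v, N u v = 1 ∨ N u v = -1 := by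
    intro u v
    have : (N u v) ^ 2 = 1 := by
      change (∏ i ∈ (Finset.univ.erase a).erase b,
        if (A i ∧ u) ∨ (B i ∧ v) then (-1 : ℤ) else 1) ^ 2 = 1
      rw [← Finset.prod_pow]
      refine Finset.prod_eq_one fun i _ => ?_
      split_ifs <;> norm_num
    rw [pow_two] at this
    exact mul_self_eq_one_iff.1 this
  have h3 : ∀ p q : Fin 3, ∑ s ∈ (States E).filter (fun s => s a = p ∧ s b = q), ∏ i, wt (s i) =
      if C p q then wt p * wt q * N (p ≠ 0) (q ≠ 0) else 0 := by
    intro p q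
    rw [h2]
    by_cases hC : C p q
    · rw [if_pos hC, if_pos hC, ← Finset.prod_univ_sum,
        ← Finset.mul_prod_erase Finset.univ _ (Finset.mem_univ a),
        ← Finset.mul_prod_erase (Finset.univ.erase a) _
          (Finset.mem_erase.2 ⟨hab.symm, Finset.mem_univ b⟩), ← mul_assoc]
      congr 1
      · simp [t, hab.symm]
      · refine Finset.prod_congr rfl fun i hi => ?_
        rw [Finset.mem_erase, Finset.mem_erase] at hi
        simp only [t, if_neg hi.1, if_neg hi.2.1]
        by_cases hD : D p q i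
        · rw [if_pos hD, if_pos hD]
          simp [wt]
        · rw [if_neg hD, if_neg hD]
          simp [Fin.sum_univ_three, wt]
    · rw [if_neg hC, if_neg hC, Finset.sum_empty]
  rw [h1]
  simp only [h3]
  convert sum_nine C la lb g (fun _ _ => Iff.rfl) N hN

end Pool.Agent.TH884.KF

end
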