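import Pool.Agent.TH884.KF.Hilb
import Pool.Agent.TH884.KF.Bound

/-!
No quadratic monomial algebra has the `h`-polynomial of the example.
-/

set_option autoImplicit false

noncomputable section

namespace Pool.Agent.TH884.KF

lemma hpoly_coeff_one : hpoly.coeff 1 = 2 := by
  have e : (hpoly : Polynomial ℤ) = Polynomial.C 1 + Polynomial.C 2 * Polynomial.X -
      Polynomial.C 2 * Polynomial.X ^ 2 - Polynomial.C 2 * Polynomial.X ^ 3 +
      Polynomial.C 2 * Polynomial.X ^ 4 := by
    simp [hpoly]
  rw [e]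
  simp only [Polynomial.coeff_add, Polynomial.coeff_sub, Polynomial.coeff_C_mul,
    Polynomial.coeff_X_pow, Polynomial.coeff_X, Polynomial.coeff_C]
  norm_num

lemma hpoly_eval_two : hpoly.eval 2 = 13 := by
  simp [hpoly]

/-- The `h`-polynomial of the example is not the `h`-polynomial of a quadratic monomial algebra. -/
theorem no_monomial {m : ℕ} {E : Set (Fin m →₀ ℕ)} (hE : ∀ e ∈ E, ∑ i, e i = 2) {d : ℕ}
    (hd : (1 - PowerSeries.X) ^ d * HS E = (hpoly : PowerSeries ℤ)) : False := by
  have h1 : (m : ℤ) - d = 2 := by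
    rw [card_vars hE hd, hpoly_coeff_one]
  have hm : m = 2 + d := by omega
  have hE2 : ∀ e ∈ E, ∀ i, e i ≤ 2 := fun e he i => ex_le (hE e he) i
  have hK : KP E = (1 - Polynomial.X) ^ 2 * hpoly := by
    apply Polynomial.coe_injective
    have e : ((1 - Polynomial.X : Polynomial ℤ) : PowerSeries ℤ) = 1 - PowerSeries.X := by simp
    rw [← mul_HS hE2, Polynomial.coe_mul, Polynomial.coe_pow, e, ← hd, ← mul_assoc, ← pow_add, ← hm]
  obtain ⟨a, b, hab, hcov⟩ := exists_cover hE (h := hpoly) (by rw [hpoly_eval]; norm_num)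
    (by omega) hK
  have h2 := abs_eval_KP_le hE hab hcov
  rw [hK, Polynomial.eval_mul, hpoly_eval_two] at h2
  norm_num at h2

/-- No quadratic monomial algebra, over any field, has the `h`-polynomial of the example. -/
theorem no_monomial_algebra {L : Type} [Field L] {m : ℕ} {E : Set (Fin m →₀ ℕ)}
    (hE : ∀ e ∈ E, ∑ i, e i = 2) {d : ℕ} {h : Polynomial ℤ} (hh : h = hpoly)
    (hd : (1 - PowerSeries.X) ^ d * PowerSeries.mk (fun j : ℕ =>
      ((Module.finrank L (Submodule.map (Ideal.Quotient.mkₐ L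
        (Ideal.span ((fun e => MvPolynomial.monomial e (1 : L)) '' E))).toLinearMap
        (MvPolynomial.homogeneousSubmodule (Fin m) L j)) : ℕ) : ℤ)) = (h : PowerSeries ℤ)) :
    False := by
  subst hh
  apply no_monomial hE (d := d)
  rw [← hd]
  congr 1
  ext j
  rw [HS, PowerSeries.coeff_mk, PowerSeries.coeff_mk, finrank_monomial]

end Pool.Agent.TH884.KF

end
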