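import Mathlib
import Pool.Agent.Results.MP_49092c_al.Disproof

/-!
Linear free resolutions from a Koszul filtration.
-/

set_option autoImplicit false

namespace Pool.Agent.TH884.KF

universe u

open Pool.Agent.Results.MP_49092c_al.Disproof (LiftProp LinVec ext0 lastCo lastCo_apply)

variable {R : Type u} [CommRing R]

/-- Submodules which are built from `0` by adding one element of `P` at a time, such that the
annihilators of the successive quotients belong to `F`. -/
inductive LF (F : Ideal R → Prop) {M : Type u} [AddCommGroup M] [Module R M] (P : M → Prop) :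
    Submodule R M → Prop
  | bot : LF F P ⊥
  | step (N : Submodule R M) (a : M) (hN : LF F P N) (ha : P a)
      (hC : F (N.comap (LinearMap.toSpanSingleton R M a))) :
      LF F P (N ⊔ Submodule.span R {a})

variable {L : R → Prop} {F : Ideal R → Prop}

lemma LF.map {M M' : Type u} [AddCommGroup M] [Module R M]
    [AddCommGroup M'] [Module R M'] {P : M → Prop} {P' : M' → Prop}
    (f : M →ₗ[R] M') (hf : Function.Injective f)
    (hP : ∀ m, P m → P' (f m)) {N : Submodule R M} (hN : LF F P N) :
    LF F P' (N.map f) := by
  induction hN with
  | bot => rw [Submodule.map_bot]; exact LF.bot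
  | step N a _ ha hC ih =>
    rw [Submodule.map_sup, Submodule.map_span, Set.image_singleton]
    refine LF.step _ _ ih (hP a ha) ?_
    have : Submodule.comap (LinearMap.toSpanSingleton R M' (f a)) (Submodule.map f N) =
        Submodule.comap (LinearMap.toSpanSingleton R M a) N := by
      ext r
      simp only [Submodule.mem_comap, LinearMap.toSpanSingleton_apply]
      rw [← map_smul]
      constructor
      · rintro ⟨m, hm, h⟩
        rw [← hf h]; exact hm
      · intro h
        exact ⟨_, h, rfl⟩
    rw [this]
    exact hC

/-- Main step: a submodule with linear quotients is the image of a matrix of linear forms whose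
kernel has linear quotients. -/
lemma LF.matrix (h0 : L 0) (hneg : ∀ r, L r → L (-r)) (hlift : LiftProp L)
    (hF : ∀ C : Ideal R, F C → LF F L C) {m : ℕ} {N : Submodule R (Fin m → R)}
    (hN : LF F (LinVec L m) N) :
    ∃ (m' : ℕ) (A : Matrix (Fin m) (Fin m') R),
      (∀ i j, L (A i j)) ∧ LinearMap.range A.mulVecLin = N ∧
      LF F (LinVec L m') (LinearMap.ker A.mulVecLin) := by
  induction hN with
  | bot =>
    refine ⟨0, 0, fun i j => j.elim0, ?_, ?_⟩
    · rw [Matrix.mulVecLin_zero]; exact LinearMap.range_zero
    · have : LinearMap.ker (0 : Matrix (Fin m) (Fin 0) R).mulVecLin = ⊥ := by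
        apply Subsingleton.elim
      rw [this]
      exact LF.bot
  | step N a _ ha hC ih =>
    obtain ⟨m', A', hA', hran, hker⟩ := ih
    let A : Matrix (Fin m) (Fin (m' + 1)) R := Matrix.of fun i => Fin.snoc (A' i) (a i)
    have hAv : ∀ v : Fin (m' + 1) → R,
        A.mulVec v = A'.mulVec (Fin.init v) + v (Fin.last m') • a := by
      intro v
      ext i
      simp only [Matrix.mulVec, dotProduct, Pi.add_apply, Pi.smul_apply, smul_eq_mul]
      rw [Fin.sum_univ_castSucc]
      simp [A, Fin.init, mul_comm]
    refine ⟨m' + 1, A, ?_, ?_, ?_⟩
    · intro i j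
      refine Fin.lastCases ?_ (fun j => ?_) j
      · simpa [A] using ha i
      · simpa [A] using hA' i j
    · apply le_antisymm
      · rintro _ ⟨v, rfl⟩
        rw [Matrix.mulVecLin_apply, hAv]
        refine Submodule.add_mem_sup ?_ (Submodule.smul_mem _ _ (Submodule.mem_span_singleton_self a))
        rw [← hran]
        exact ⟨_, rfl⟩
      · rw [sup_le_iff, Submodule.span_singleton_le_iff_mem]
        constructor
        · rw [← hran]
          rintro _ ⟨v, rfl⟩
          refine ⟨Fin.snoc v 0, ?_⟩
          rw [Matrix.mulVecLin_apply, hAv]
          simp only [Fin.init_snoc, Fin.snoc_last, Matrix.mulVecLin_apply]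
          rw [zero_smul, add_zero]
        · refine ⟨Fin.snoc 0 1, ?_⟩
          rw [Matrix.mulVecLin_apply, hAv]
          simp
    · -- the kernel
      have claim : ∀ C : Ideal R, LF F L C →
          C ≤ N.comap (LinearMap.toSpanSingleton R _ a) →
          LF F (LinVec L (m' + 1)) (LinearMap.ker A.mulVecLin ⊓ Submodule.comap (lastCo R m') C) := by
        intro C hC
        induction hC with
        | bot =>
          intro _
          have h1 : LF F (LinVec L (m' + 1)) ((LinearMap.ker A'.mulVecLin).map (ext0 R m')) := by
            refine LF.map (P := LinVec L m') (ext0 R m') ?_ ?_ hker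
            · intro v w hvw
              ext i
              have := congrFun hvw (Fin.castSucc i)
              simpa [ext0] using this
            · intro v hv i
              refine Fin.lastCases ?_ (fun i => ?_) i
              · simpa [ext0] using h0
              · simpa [ext0] using hv i
          convert h1 using 1
          ext w
          simp only [Submodule.mem_inf, LinearMap.mem_ker, Matrix.mulVecLin_apply,
            Submodule.mem_comap, lastCo_apply, Submodule.mem_bot, Submodule.mem_map, hAv]
          constructor
          · rintro ⟨hw1, hw2⟩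
            rw [hw2, zero_smul, add_zero] at hw1
            refine ⟨Fin.init w, hw1, ?_⟩
            show Fin.snoc (Fin.init w) 0 = w
            rw [← hw2, Fin.snoc_init_self]
          · rintro ⟨v, hv, rfl⟩
            constructor
            · simp [ext0, hv]
            · simp [ext0]
        | step C c _ hc hCc ihC =>
          intro hle
          have hle' : C ≤ N.comap (LinearMap.toSpanSingleton R _ a) := le_trans le_sup_left hle
          have hcmem : c • a ∈ N := by
            have : c ∈ N.comap (LinearMap.toSpanSingleton R _ a) :=
              hle (Submodule.mem_sup_right (Submodule.mem_span_singleton_self c))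
            simpa using this
          rw [← hran] at hcmem
          obtain ⟨w0, hw0⟩ := hcmem
          obtain ⟨W, hW, hWeq⟩ := hlift m m' A' a c w0 hA' ha hc hw0
          let zv : Fin (m' + 1) → R := Fin.snoc (-W) c
          have hzker : A.mulVec zv = 0 := by
            rw [hAv]
            simp only [zv, Fin.init_snoc, Fin.snoc_last]
            rw [Matrix.mulVec_neg, hWeq, neg_add_cancel]
          have hnew : LinearMap.ker A.mulVecLin ⊓
              Submodule.comap (lastCo R m') (C ⊔ Submodule.span R {c}) =
              (LinearMap.ker A.mulVecLin ⊓ Submodule.comap (lastCo R m') C) ⊔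
                Submodule.span R {zv} := by
            apply le_antisymm
            · rintro w ⟨hw1, hw2⟩
              obtain ⟨p, hp, q, hq, hpq⟩ := Submodule.mem_sup.mp hw2
              obtain ⟨s, rfl⟩ := Submodule.mem_span_singleton.mp hq
              refine Submodule.mem_sup.mpr ⟨w - s • zv, ⟨?_, ?_⟩, s • zv,
                Submodule.smul_mem _ _ (Submodule.mem_span_singleton_self _), by simp⟩
              · refine Submodule.sub_mem _ hw1 (Submodule.smul_mem _ _ ?_)
                exact hzker
              · have : (w - s • zv) (Fin.last m') = p := by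
                  rw [lastCo_apply] at hpq
                  simp [zv, ← hpq]
                show (w - s • zv) (Fin.last m') ∈ C
                rw [this]; exact hp
            · rw [sup_le_iff]
              constructor
              · exact inf_le_inf_left _ (Submodule.comap_mono le_sup_left)
              · rw [Submodule.span_singleton_le_iff_mem]
                refine ⟨hzker, ?_⟩
                show zv (Fin.last m') ∈ C ⊔ Submodule.span R {c}
                simp only [zv, Fin.snoc_last]
                exact Submodule.mem_sup_right (Submodule.mem_span_singleton_self c)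
          rw [hnew]
          refine LF.step _ zv (ihC hle') ?_ ?_
          · intro i
            refine Fin.lastCases ?_ (fun j => ?_) i
            · simpa [zv] using hc
            · simpa [zv] using hneg _ (hW j)
          · convert hCc using 1
            ext s
            simp only [Submodule.mem_comap, LinearMap.toSpanSingleton_apply, Submodule.mem_inf,
              lastCo_apply, Pi.smul_apply]
            constructor
            · rintro ⟨_, h2⟩
              simpa [zv] using h2
            · intro h2
              refine ⟨Submodule.smul_mem _ _ hzker, ?_⟩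
              simpa [zv] using h2
      have hfin := claim _ (hF _ hC) le_rfl
      convert hfin using 1
      symm
      rw [inf_eq_left]
      intro w hw
      have hw' : A.mulVec w = 0 := hw
      rw [hAv] at hw'
      show w (Fin.last m') • a ∈ N
      rw [← hran]
      refine ⟨-Fin.init w, ?_⟩
      rw [map_neg, Matrix.mulVecLin_apply, neg_eq_iff_add_eq_zero]
      exact hw'

/-- A state of the recursive construction of the resolution. -/
structure State (F : Ideal R → Prop) (L : R → Prop) : Type u where
  m : ℕ
  N : Submodule R (Fin m → R)
  h : LF F (LinVec L m) N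

/-- If `F` is a Koszul filtration and `I` belongs to `F`, then `R / I` has a linear free
resolution. -/
theorem exists_resolution (h0 : L 0) (hneg : ∀ r, L r → L (-r)) (hlift : LiftProp L)
    (hF : ∀ C : Ideal R, F C → LF F L C) (I : Ideal R) (hI : F I) :
    ∃ (b : ℕ → ℕ) (M : ∀ i : ℕ, Matrix (Fin (b i)) (Fin (b (i + 1))) R),
      b 0 = 1 ∧ (∀ i r c, L (M i r c)) ∧
      (∀ u : Fin (b 0) → R, (∃ w, Matrix.mulVec (M 0) w = u) ↔ ∀ r, u r ∈ I) ∧
      (∀ (i : ℕ) (v : Fin (b (i + 1)) → R),
        Matrix.mulVec (M i) v = 0 ↔ ∃ w, Matrix.mulVec (M (i + 1)) w = v) := by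
  have aux : ∀ s : State F L, ∃ (s' : State F L) (A : Matrix (Fin s.m) (Fin s'.m) R),
      (∀ i j, L (A i j)) ∧ LinearMap.range A.mulVecLin = s.N ∧
      LinearMap.ker A.mulVecLin = s'.N := by
    intro s
    obtain ⟨m', A, h1, h2, h3⟩ := LF.matrix h0 hneg hlift hF s.h
    exact ⟨⟨m', _, h3⟩, A, h1, h2, rfl⟩
  choose nxt mat h1 h2 h3 using aux
  let ι : R →ₗ[R] (Fin 1 → R) := LinearMap.pi fun _ => LinearMap.id
  have hι : LF F (LinVec L 1) (Submodule.map ι I) := by
    refine LF.map (P := L) ι ?_ ?_ (hF I hI)
    · intro v w hvw
      have := congrFun hvw 0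
      simpa [ι] using this
    · intro v hv i
      simpa [ι] using hv
  let s : ℕ → State F L := fun i => Nat.rec ⟨1, _, hι⟩ (fun _ t => nxt t) i
  have hker : ∀ i (v : Fin (s (i + 1)).m → R), (mat (s i)).mulVec v = 0 ↔
      ∃ w, (mat (s (i + 1))).mulVec w = v := by
    intro i v
    have e1 : (mat (s i)).mulVec v = 0 ↔ v ∈ LinearMap.ker (mat (s i)).mulVecLin := by
      rw [LinearMap.mem_ker, Matrix.mulVecLin_apply]
    have e2 : LinearMap.ker (mat (s i)).mulVecLin = (s (i + 1)).N := h3 (s i)
    rw [e1, e2, ← h2 (s (i + 1))]
    rfl
  refine ⟨fun i => (s i).m, fun i => mat (s i), rfl, fun i r c => h1 (s i) r c, ?_, hker⟩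
  intro u
  have e1 : (∃ w, Matrix.mulVec (mat (s 0)) w = u) ↔ u ∈ (s 0).N := by
    rw [← h2 (s 0)]
    rfl
  rw [e1]
  change u ∈ Submodule.map ι I ↔ _
  constructor
  · rintro ⟨r, hr, rfl⟩ i
    exact hr
  · intro h
    refine ⟨u (0 : Fin 1), h (0 : Fin 1), ?_⟩
    funext i
    have hi : i = (0 : Fin 1) := Subsingleton.elim (α := Fin 1) _ _
    rw [hi]
    rfl

end Pool.Agent.TH884.KF
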