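import Pool.Agent.TH884.KF.Ideals

/-!
The grading of the ring `Q` and its presentation.
-/

set_option autoImplicit false

open Polynomial

noncomputable section

namespace Pool.Agent.TH884.KF

variable {K : Type} [Field K]

namespace Q

/-- A coefficient, as a linear map. -/
def coL (i k : ℕ) : Q K →ₗ[K] K where
  toFun x := (x.p.coeff i).coeff k
  map_add' x y := by simp
  map_smul' r x := by simp

/-- The coefficient of `a`. -/
def uL : Q K →ₗ[K] K where
  toFun x := x.u
  map_add' x y := by simp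
  map_smul' r x := by simp

/-- The coefficient of `b`. -/
def vL : Q K →ₗ[K] K where
  toFun x := x.v
  map_add' x y := by simp
  map_smul' r x := by simp

/-- The coefficient of `ab`. -/
def sL : Q K →ₗ[K] K where
  toFun x := x.s
  map_add' x y := by simp
  map_smul' r x := by simp

/-- The coefficient of `ad`. -/
def tL : Q K →ₗ[K] K where
  toFun x := x.t
  map_add' x y := by simp
  map_smul' r x := by simp

lemma eq_zero_of {x : Q K} (h1 : ∀ i k, coL i k x = 0) (h2 : uL x = 0) (h3 : vL x = 0)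
    (h4 : sL x = 0) (h5 : tL x = 0) : x = 0 := by
  ext1
  · ext i k
    exact h1 i k
  · exact h2
  · exact h3
  · exact h4
  · exact h5

/-- The elements of degree `j`. -/
def V (j : ℕ) : Submodule K (Q K) where
  carrier := {x | (∀ i k, i + k ≠ j → (x.p.coeff i).coeff k = 0) ∧
    (j ≠ 1 → x.u = 0 ∧ x.v = 0) ∧ (j ≠ 2 → x.s = 0 ∧ x.t = 0)}
  add_mem' := by
    rintro x y ⟨h1, h2, h3⟩ ⟨h1', h2', h3'⟩
    refine ⟨fun i k h => by simp [h1 i k h, h1' i k h], fun h => ?_, fun h => ?_⟩
    · simp [h2 h, h2' h]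
    · simp [h3 h, h3' h]
  zero_mem' := by simp
  smul_mem' := by
    rintro r x ⟨h1, h2, h3⟩
    refine ⟨fun i k h => by simp [h1 i k h], fun h => ?_, fun h => ?_⟩
    · simp [h2 h]
    · simp [h3 h]

lemma V_c0 {j : ℕ} {x : Q K} (hx : x ∈ V j) (h : j ≠ 0) : c0 x.p = 0 :=
  hx.1 0 0 (by omega)

lemma V_cc {j : ℕ} {x : Q K} (hx : x ∈ V j) (h : j ≠ 1) : cc x.p = 0 :=
  hx.1 0 1 (by omega)

lemma V_cd {j : ℕ} {x : Q K} (hx : x ∈ V j) (h : j ≠ 1) : cd x.p = 0 :=
  hx.1 1 0 (by omega)

lemma V_mul {i j : ℕ} {x y : Q K} (hx : x ∈ V i) (hy : y ∈ V j) : x * y ∈ V (i + j) := by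
  refine ⟨?_, ?_, ?_⟩
  · intro m k h
    rw [mul_p, coeff_mul, finsetSum_coeff]
    refine Finset.sum_eq_zero fun q hq => ?_
    rw [coeff_mul]
    refine Finset.sum_eq_zero fun r hr => ?_
    have hq' : q.1 + q.2 = m := Finset.HasAntidiagonal.mem_antidiagonal.1 hq
    have hr' : r.1 + r.2 = k := Finset.HasAntidiagonal.mem_antidiagonal.1 hr
    by_cases h1 : q.1 + r.1 = i
    · rw [hy.1 q.2 r.2 (by omega), mul_zero]
    · rw [hx.1 q.1 r.1 h1, zero_mul]
  · intro h
    have e1 : c0 x.p * y.u = 0 ∧ c0 x.p * y.v = 0 := by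
      by_cases h1 : i = 0
      · have := hy.2.1 (by omega)
        simp [this]
      · simp [V_c0 hx h1]
    have e2 : x.u * c0 y.p = 0 ∧ x.v * c0 y.p = 0 := by
      by_cases h1 : j = 0
      · have := hx.2.1 (by omega)
        simp [this]
      · simp [V_c0 hy h1]
    constructor
    · rw [mul_u, e1.1, e2.1, add_zero]
    · rw [mul_v, e1.2, e2.2, add_zero]
  · intro h
    have e1 : c0 x.p * y.s = 0 ∧ c0 x.p * y.t = 0 := by
      by_cases h1 : i = 0
      · have := hy.2.2 (by omega)
        simp [this]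
      · simp [V_c0 hx h1]
    have e2 : x.s * c0 y.p = 0 ∧ x.t * c0 y.p = 0 := by
      by_cases h1 : j = 0
      · have := hx.2.2 (by omega)
        simp [this]
      · simp [V_c0 hy h1]
    have e3 : x.u * y.v = 0 ∧ x.v * y.u = 0 ∧ x.v * y.v = 0 := by
      by_cases h1 : i = 1
      · have := hy.2.1 (by omega)
        simp [this]
      · have := hx.2.1 h1
        simp [this]
    have e4 : cd x.p * y.u = 0 ∧ cc x.p * y.v = 0 := by
      by_cases h1 : i = 1
      · have := hy.2.1 (by omega)
        simp [this]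
      · simp [V_cd hx h1, V_cc hx h1]
    have e5 : x.u * cd y.p = 0 ∧ x.v * cc y.p = 0 := by
      by_cases h1 : j = 1
      · have := hx.2.1 (by omega)
        simp [this]
      · simp [V_cd hy h1, V_cc hy h1]
    constructor
    · rw [mul_s, e1.1, e2.1, e3.1, e3.2.1]
      simp
    · rw [mul_t, e1.2, e2.2, e3.2.2, e4.1, e4.2, e5.1, e5.2]
      simp

lemma one_mem : (1 : Q K) ∈ V 0 := by
  refine ⟨fun i k h => ?_, by simp, by simp⟩
  rw [one_p, coeff_one]
  by_cases hi : i = 0
  · rw [if_pos hi, coeff_one, if_neg (by omega)]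
  · rw [if_neg hi, coeff_zero]

lemma a_mem : (a : Q K) ∈ V 1 := by
  refine ⟨by simp, by simp, by simp⟩

lemma b_mem : (b : Q K) ∈ V 1 := by
  refine ⟨by simp, by simp, by simp⟩

lemma c_mem : (c : Q K) ∈ V 1 := by
  refine ⟨fun i k h => ?_, by simp, by simp⟩
  rw [c_p, coeff_C]
  by_cases hi : i = 0
  · rw [if_pos hi, coeff_X, if_neg (by omega)]
  · rw [if_neg hi, coeff_zero]

lemma d_mem : (d : Q K) ∈ V 1 := by
  refine ⟨fun i k h => ?_, by simp, by simp⟩
  rw [d_p, coeff_X]
  by_cases hi : 1 = i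
  · rw [if_pos hi, coeff_one, if_neg (by omega)]
  · rw [if_neg hi, coeff_zero]

lemma V_pow_le (j : ℕ) : (V 1 : Submodule K (Q K)) ^ j ≤ V j := by
  induction j with
  | zero =>
    rw [pow_zero, Submodule.one_le]
    exact one_mem
  | succ j ih =>
    rw [pow_succ, Submodule.mul_le]
    intro x hx y hy
    exact V_mul (ih hx) hy

end Q

open Q

/-- The presentation of `Q`. -/
def phi : MvPolynomial (Fin 4) K →ₐ[K] Q K := MvPolynomial.aeval ![Q.a, Q.b, Q.c, Q.d]

@[simp] lemma phi_X0 : phi (MvPolynomial.X 0 : MvPolynomial (Fin 4) K) = Q.a := by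
  simp [phi]
@[simp] lemma phi_X1 : phi (MvPolynomial.X 1 : MvPolynomial (Fin 4) K) = Q.b := by
  simp [phi]
@[simp] lemma phi_X2 : phi (MvPolynomial.X 2 : MvPolynomial (Fin 4) K) = Q.c := by
  simp [phi]
@[simp] lemma phi_X3 : phi (MvPolynomial.X 3 : MvPolynomial (Fin 4) K) = Q.d := by
  simp [phi]

lemma phi_mem {p : MvPolynomial (Fin 4) K} {j : ℕ} (hp : p.IsHomogeneous j) : phi p ∈ V j := by
  have h1 : (MvPolynomial.homogeneousSubmodule (Fin 4) K 1).map phi.toLinearMap ≤ V 1 := by
    rw [MvPolynomial.homogeneousSubmodule_one_eq_span_X, Submodule.map_span, Submodule.span_le]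
    rintro _ ⟨_, ⟨i, rfl⟩, rfl⟩
    fin_cases i
    · simpa using a_mem
    · simpa using b_mem
    · simpa using c_mem
    · simpa using d_mem
  have h2 : (MvPolynomial.homogeneousSubmodule (Fin 4) K j).map phi.toLinearMap ≤ V j := by
    rw [← MvPolynomial.homogeneousSubmodule_one_pow, Submodule.map_pow]
    exact le_trans (pow_le_pow_left' h1 j) (V_pow_le j)
  exact h2 ⟨p, hp, rfl⟩

/-- A linear map which vanishes on `V l` for all `l ≠ j` sees only the component of degree `j`. -/
lemma comp_apply (g : Q K →ₗ[K] K) (j : ℕ) (hg : ∀ l, l ≠ j → ∀ x ∈ V l, g x = 0)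
    (p : MvPolynomial (Fin 4) K) :
    g (phi (MvPolynomial.homogeneousComponent j p)) = g (phi p) := by
  conv_rhs => rw [← MvPolynomial.sum_homogeneousComponent p]
  rw [map_sum, map_sum]
  by_cases hj : j ∈ Finset.range (p.totalDegree + 1)
  · rw [Finset.sum_eq_single_of_mem j hj]
    intro l _ hl
    exact hg l hl _ (phi_mem (MvPolynomial.homogeneousComponent_isHomogeneous _ _))
  · rw [Finset.sum_eq_zero]
    · rw [MvPolynomial.homogeneousComponent_eq_zero _ _ (by
        rw [Finset.mem_range] at hj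
        omega), map_zero, map_zero]
    · intro l hl
      refine hg l ?_ _ (phi_mem (MvPolynomial.homogeneousComponent_isHomogeneous _ _))
      rintro rfl
      exact hj hl

lemma phi_comp {p : MvPolynomial (Fin 4) K} (hp : phi p = 0) (j : ℕ) :
    phi (MvPolynomial.homogeneousComponent j p) = 0 := by
  have hmem := phi_mem (MvPolynomial.homogeneousComponent_isHomogeneous j p)
  refine eq_zero_of (fun i k => ?_) ?_ ?_ ?_ ?_
  · by_cases h : i + k = j
    · rw [comp_apply _ j, hp, map_zero]
      intro l hl x hx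
      exact hx.1 i k (by omega)
    · exact hmem.1 i k h
  · by_cases h : j = 1
    · rw [comp_apply _ j, hp, map_zero]
      intro l hl x hx
      exact (hx.2.1 (by omega)).1
    · exact (hmem.2.1 h).1
  · by_cases h : j = 1
    · rw [comp_apply _ j, hp, map_zero]
      intro l hl x hx
      exact (hx.2.1 (by omega)).2
    · exact (hmem.2.1 h).2
  · by_cases h : j = 2
    · rw [comp_apply _ j, hp, map_zero]
      intro l hl x hx
      exact (hx.2.2 (by omega)).1
    · exact (hmem.2.2 h).1
  · by_cases h : j = 2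
    · rw [comp_apply _ j, hp, map_zero]
      intro l hl x hx
      exact (hx.2.2 (by omega)).2
    · exact (hmem.2.2 h).2

/-- The ideal of the algebra. -/
def J (K : Type) [Field K] : Ideal (MvPolynomial (Fin 4) K) := RingHom.ker (phi (K := K))

lemma mem_J {p : MvPolynomial (Fin 4) K} : p ∈ J K ↔ phi p = 0 := RingHom.mem_ker

lemma J_hom : ∀ p ∈ J K, ∀ j : ℕ, MvPolynomial.homogeneousComponent j p ∈ J K :=
  fun _ hp j => mem_J.2 (phi_comp (mem_J.1 hp) j)

lemma ker_constantCoeff : RingHom.ker (MvPolynomial.constantCoeff :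
    MvPolynomial (Fin 4) K →+* K) = MvPolynomial.idealOfVars (Fin 4) K := by
  ext p
  rw [RingHom.mem_ker, ← pow_one (MvPolynomial.idealOfVars (Fin 4) K),
    MvPolynomial.mem_pow_idealOfVars_iff']
  constructor
  · intro h x hx
    have : x = 0 := by
      rw [← Finsupp.degree_eq_zero_iff]
      omega
    rw [this]
    exact h
  · intro h
    exact h 0 (by simp)

lemma phi_C (k : K) : phi (MvPolynomial.C k : MvPolynomial (Fin 4) K) = ofP (C (C k)) := by
  rw [phi, MvPolynomial.aeval_C]
  rfl

lemma J_le : J K ≤ (RingHom.ker (MvPolynomial.constantCoeff :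
    MvPolynomial (Fin 4) K →+* K)) ^ 2 := by
  intro p hp
  rw [ker_constantCoeff, MvPolynomial.mem_pow_idealOfVars_iff']
  intro x hx
  have h0 := mem_J.1 (J_hom p hp 0)
  have h1 := mem_J.1 (J_hom p hp 1)
  rw [MvPolynomial.homogeneousComponent_zero, phi_C] at h0
  have hc : ∀ j, x.degree = j → p.coeff x = (MvPolynomial.homogeneousComponent j p).coeff x := by
    intro j hj
    rw [MvPolynomial.coeff_homogeneousComponent, if_pos hj]
  have hd : x.degree = 0 ∨ x.degree = 1 := by omega
  rcases hd with hd | hd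
  · rw [hc 0 hd, MvPolynomial.homogeneousComponent_zero]
    have := congrArg (fun y => c0 (Q.p y)) h0
    simp at this
    simp [this]
  · rw [hc 1 hd]
    have hq := MvPolynomial.homogeneousComponent_mem (n := 1) (φ := p)
    rw [MvPolynomial.homogeneousSubmodule_one_eq_span_X] at hq
    have key : ∀ q ∈ Submodule.span K (Set.range (MvPolynomial.X : Fin 4 → MvPolynomial (Fin 4) K)),
        q = MvPolynomial.C (phi q).u * MvPolynomial.X 0 + MvPolynomial.C (phi q).v *
          MvPolynomial.X 1 + MvPolynomial.C (cc (phi q).p) * MvPolynomial.X 2 +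
          MvPolynomial.C (cd (phi q).p) * MvPolynomial.X 3 := by
      intro q hq
      induction hq using Submodule.span_induction with
      | mem f hf =>
        obtain ⟨i, rfl⟩ := hf
        fin_cases i <;> simp
      | zero => simp
      | add f g _ _ hf hg =>
        conv_lhs => rw [hf, hg]
        simp only [map_add, add_u, add_v, add_p, cc_add, cd_add]
        ring
      | smul k f _ hf =>
        have e : phi (k • f) = k • phi f := map_smul _ _ _
        rw [e]
        conv_lhs => rw [hf]
        simp only [smul_u, smul_v, smul_p, cc_mul, cd_mul, c0_C, cc_C, cd_C, zero_mul,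
          add_zero, map_mul]
        rw [MvPolynomial.smul_eq_C_mul]
        ring
    rw [key _ hq, h1]
    simp

end Pool.Agent.TH884.KF

end
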