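import Pool.Agent.TH884.KF.Res

/-!
The Hilbert series of the algebra.
-/

set_option autoImplicit false

noncomputable section

namespace Pool.Agent.TH884.KF

open Q

variable {K : Type} [Field K]

/-- The polynomials of degree `j` in `c` and `d`. -/
def PL (j : ℕ) : (Fin (j + 1) → K) →ₗ[K] Q K where
  toFun α := ofP (∑ i : Fin (j + 1),
    Polynomial.monomial (i : ℕ) (Polynomial.monomial (j - i) (α i)))
  map_add' α β := by
    rw [← map_add, ← Finset.sum_add_distrib]
    simp
  map_smul' r α := by
    rw [RingHom.id_apply, smul_eq, ← map_mul, Finset.mul_sum]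
    congr 1
    refine Finset.sum_congr rfl fun i _ => ?_
    rw [Polynomial.C_mul_monomial, Polynomial.C_mul_monomial]
    rfl

lemma PL_coeff (j : ℕ) (α : Fin (j + 1) → K) (i k : ℕ) :
    ((PL j α).p.coeff i).coeff k = if h : i + k = j then α ⟨i, by omega⟩ else 0 := by
  change (Polynomial.coeff (∑ l : Fin (j + 1),
    Polynomial.monomial (l : ℕ) (Polynomial.monomial (j - l) (α l))) i).coeff k = _
  rw [Polynomial.finsetSum_coeff, Polynomial.finsetSum_coeff]
  by_cases hi : i < j + 1
  · rw [Finset.sum_eq_single (⟨i, hi⟩ : Fin (j + 1))]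
    · rw [Polynomial.coeff_monomial, if_pos rfl, Polynomial.coeff_monomial]
      by_cases h : i + k = j
      · rw [if_pos (by simp only; omega), dif_pos h]
      · rw [if_neg (by simp only; omega), dif_neg h]
    · intro l _ hl
      rw [Polynomial.coeff_monomial, if_neg, Polynomial.coeff_zero]
      intro h
      exact hl (Fin.ext h)
    · simp
  · rw [dif_neg (by omega)]
    refine Finset.sum_eq_zero fun l _ => ?_
    rw [Polynomial.coeff_monomial, if_neg (by omega), Polynomial.coeff_zero]

lemma PL_mem (j : ℕ) (α : Fin (j + 1) → K) : PL j α ∈ V j := by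
  refine ⟨fun i k h => ?_, fun _ => ⟨rfl, rfl⟩, fun _ => ⟨rfl, rfl⟩⟩
  rw [PL_coeff, dif_neg h]

/-- The dimension of `V j`. -/
lemma finrank_V (j : ℕ) {W : Type} [AddCommGroup W] [Module K W] [FiniteDimensional K W]
    (g : W →ₗ[K] Q K) (hg : Function.Injective g) (hp : ∀ w, (g w).p = 0)
    (hV : ∀ w, g w ∈ V j) (hs : ∀ x ∈ V j, x.p = 0 → ∃ w, g w = x) :
    Module.finrank K (V j : Submodule K (Q K)) = j + 1 + Module.finrank K W := by
  let T : ((Fin (j + 1) → K) × W) →ₗ[K] Q K := (PL j).coprod g
  have hT : ∀ α w, T (α, w) = PL j α + g w := fun α w => by simp [T]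
  have hinj : Function.Injective T := by
    rw [injective_iff_map_eq_zero]
    rintro ⟨α, w⟩ h
    rw [hT] at h
    have h1 : α = 0 := by
      funext i
      have := congrArg (fun y => ((Q.p y).coeff (i : ℕ)).coeff (j - i)) h
      simp only [add_p, hp, add_zero, zero_p, Polynomial.coeff_zero] at this
      rw [PL_coeff, dif_pos (by omega)] at this
      exact this
    subst h1
    rw [map_zero, zero_add] at h
    have h2 : w = 0 := hg (by rw [h, map_zero])
    rw [h2]
    rfl
  have hr : LinearMap.range T = V j := by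
    apply le_antisymm
    · rintro _ ⟨⟨α, w⟩, rfl⟩
      rw [hT]
      exact add_mem (PL_mem j α) (hV w)
    · intro x hx
      let α : Fin (j + 1) → K := fun i => (x.p.coeff i).coeff (j - i)
      have h1 : (x - PL j α).p = 0 := by
        ext i k
        rw [sub_p, Polynomial.coeff_sub, Polynomial.coeff_sub, PL_coeff]
        by_cases h : i + k = j
        · rw [dif_pos h]
          simp only [α]
          rw [show j - i = k by omega]
          simp
        · rw [dif_neg h, hx.1 i k h]
          simp
      obtain ⟨w, hw⟩ := hs _ (sub_mem hx (PL_mem j α)) h1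
      exact ⟨(α, w), by rw [hT, hw]; abel⟩
  rw [← hr, LinearMap.finrank_range_of_inj hinj, Module.finrank_prod, Module.finrank_fin_fun]

lemma finrank_V_one : Module.finrank K (V 1 : Submodule K (Q K)) = 4 := by
  let g : (K × K) →ₗ[K] Q K :=
    { toFun := fun w => ⟨0, w.1, w.2, 0, 0⟩
      map_add' := fun x y => by ext1 <;> simp
      map_smul' := fun r x => by ext1 <;> simp }
  have := finrank_V 1 g (fun x y h => by
      have h1 := congrArg Q.u h
      have h2 := congrArg Q.v h
      exact Prod.ext h1 h2) (fun _ => rfl)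
      (fun w => ⟨fun i k _ => by simp [g], fun h => absurd rfl h, fun _ => ⟨rfl, rfl⟩⟩)
      (fun x hx h => ⟨(x.u, x.v), by
        have := hx.2.2 (by norm_num)
        ext1 <;> simp [g, h, this]⟩)
  rw [this]
  simp

lemma finrank_V_two : Module.finrank K (V 2 : Submodule K (Q K)) = 5 := by
  let g : (K × K) →ₗ[K] Q K :=
    { toFun := fun w => ⟨0, 0, 0, w.1, w.2⟩
      map_add' := fun x y => by ext1 <;> simp
      map_smul' := fun r x => by ext1 <;> simp }
  have := finrank_V 2 g (fun x y h => by
      have h1 := congrArg Q.s h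
      have h2 := congrArg Q.t h
      exact Prod.ext h1 h2) (fun _ => rfl)
      (fun w => ⟨fun i k _ => by simp [g], fun _ => ⟨rfl, rfl⟩, fun h => absurd rfl h⟩)
      (fun x hx h => ⟨(x.s, x.t), by
        have := hx.2.1 (by norm_num)
        ext1 <;> simp [g, h, this]⟩)
  rw [this]
  simp

lemma finrank_V_other {j : ℕ} (h1 : j ≠ 1) (h2 : j ≠ 2) :
    Module.finrank K (V j : Submodule K (Q K)) = j + 1 := by
  have := finrank_V j (0 : (Fin 0 → K) →ₗ[K] Q K) (fun x y _ => Subsingleton.elim _ _)
    (fun _ => rfl) (fun _ => zero_mem _)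
    (fun x hx h => ⟨0, by
      have e1 := hx.2.1 h1
      have e2 := hx.2.2 h2
      ext1 <;> simp [h, e1, e2]⟩)
  rw [this]
  simp

lemma map_phi (j : ℕ) :
    (MvPolynomial.homogeneousSubmodule (Fin 4) K j).map phi.toLinearMap = V j := by
  apply le_antisymm
  · rintro _ ⟨p, hp, rfl⟩
    exact phi_mem hp
  · intro x hx
    obtain ⟨p, rfl⟩ := phi_surj x
    refine ⟨MvPolynomial.homogeneousComponent j p, MvPolynomial.homogeneousComponent_mem _ _, ?_⟩
    change phi _ = phi p
    have hmem := phi_mem (MvPolynomial.homogeneousComponent_isHomogeneous j p)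
    rw [← sub_eq_zero]
    refine eq_zero_of (fun i k => ?_) ?_ ?_ ?_ ?_
    · rw [map_sub, sub_eq_zero]
      by_cases h : i + k = j
      · rw [comp_apply _ j]
        intro l hl x hx
        exact hx.1 i k (by omega)
      · exact (hmem.1 i k h).trans (hx.1 i k h).symm
    · rw [map_sub, sub_eq_zero]
      by_cases h : j = 1
      · rw [comp_apply _ j]
        intro l hl x hx
        exact (hx.2.1 (by omega)).1
      · exact ((hmem.2.1 h).1).trans ((hx.2.1 h).1).symm
    · rw [map_sub, sub_eq_zero]
      by_cases h : j = 1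
      · rw [comp_apply _ j]
        intro l hl x hx
        exact (hx.2.1 (by omega)).2
      · exact ((hmem.2.1 h).2).trans ((hx.2.1 h).2).symm
    · rw [map_sub, sub_eq_zero]
      by_cases h : j = 2
      · rw [comp_apply _ j]
        intro l hl x hx
        exact (hx.2.2 (by omega)).1
      · exact ((hmem.2.2 h).1).trans ((hx.2.2 h).1).symm
    · rw [map_sub, sub_eq_zero]
      by_cases h : j = 2
      · rw [comp_apply _ j]
        intro l hl x hx
        exact (hx.2.2 (by omega)).2
      · exact ((hmem.2.2 h).2).trans ((hx.2.2 h).2).symm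

/-- The Hilbert function of the algebra. -/
theorem finrank_eq (j : ℕ) : Module.finrank K
    (Submodule.map (Ideal.Quotient.mkₐ K (J K)).toLinearMap
      (MvPolynomial.homogeneousSubmodule (Fin 4) K j)) =
    j + 1 + (if j = 1 then 2 else 0) + (if j = 2 then 2 else 0) := by
  have h : Submodule.map (iso K).toLinearEquiv.toLinearMap
      (Submodule.map (Ideal.Quotient.mkₐ K (J K)).toLinearMap
      (MvPolynomial.homogeneousSubmodule (Fin 4) K j)) = V j := by
    rw [← map_phi j, ← Submodule.map_comp]
    rfl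
  rw [← LinearEquiv.finrank_map_eq (iso K).toLinearEquiv, h]
  by_cases h1 : j = 1
  · subst h1
    rw [finrank_V_one]
    simp
  · by_cases h2 : j = 2
    · subst h2
      rw [finrank_V_two]
      simp
    · rw [finrank_V_other h1 h2, if_neg h1, if_neg h2]

/-- The `h`-polynomial of the algebra. -/
def hpoly : Polynomial ℤ := 1 + 2 * Polynomial.X - 2 * Polynomial.X ^ 2 - 2 * Polynomial.X ^ 3 +
  2 * Polynomial.X ^ 4

lemma hpoly_eval : hpoly.eval 1 = 1 := by
  simp [hpoly]

lemma hpoly_coe : (hpoly : PowerSeries ℤ) = 1 + 2 * PowerSeries.X - 2 * PowerSeries.X ^ 2 -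
    2 * PowerSeries.X ^ 3 + 2 * PowerSeries.X ^ 4 := by
  have e : ((2 : Polynomial ℤ) : PowerSeries ℤ) = 2 :=
    map_ofNat (Polynomial.coeToPowerSeries.ringHom (R := ℤ)) 2
  simp [hpoly, e]

/-- The Hilbert series of the algebra. -/
theorem hilbert : (1 - PowerSeries.X) ^ 2 * PowerSeries.mk (fun j : ℕ =>
    ((Module.finrank K (Submodule.map (Ideal.Quotient.mkₐ K (J K)).toLinearMap
      (MvPolynomial.homogeneousSubmodule (Fin 4) K j)) : ℕ) : ℤ)) = (hpoly : PowerSeries ℤ) := by
  have h1 : (PowerSeries.mk (fun j : ℕ =>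
      ((Module.finrank K (Submodule.map (Ideal.Quotient.mkₐ K (J K)).toLinearMap
        (MvPolynomial.homogeneousSubmodule (Fin 4) K j)) : ℕ) : ℤ)) : PowerSeries ℤ) =
      PowerSeries.mk (fun j : ℕ => ((j + 1 : ℕ) : ℤ)) + 2 * PowerSeries.X +
        2 * PowerSeries.X ^ 2 := by
    ext j
    have e2 : (2 : PowerSeries ℤ) = PowerSeries.C 2 := rfl
    rw [map_add, map_add, PowerSeries.coeff_mk, PowerSeries.coeff_mk, finrank_eq, e2,
      PowerSeries.coeff_C_mul, PowerSeries.coeff_C_mul, PowerSeries.coeff_X,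
      PowerSeries.coeff_X_pow]
    push_cast
    split_ifs <;> simp
  have h2 : (1 - PowerSeries.X) ^ 2 * PowerSeries.mk (fun j : ℕ => ((j + 1 : ℕ) : ℤ)) = 1 := by
    have e3 : (1 - PowerSeries.X) * PowerSeries.mk (fun j : ℕ => ((j + 1 : ℕ) : ℤ)) =
        PowerSeries.mk (fun _ => (1 : ℤ)) := by
      ext j
      rw [sub_mul, one_mul, map_sub]
      cases j with
      | zero => simp
      | succ j =>
        rw [PowerSeries.coeff_succ_X_mul]
        simp
    have e4 : (1 - PowerSeries.X) * PowerSeries.mk (fun _ => (1 : ℤ)) = 1 := by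
      ext j
      rw [sub_mul, one_mul, map_sub]
      cases j with
      | zero => simp
      | succ j =>
        rw [PowerSeries.coeff_succ_X_mul]
        simp [PowerSeries.coeff_one]
    rw [pow_two, mul_assoc, e3, e4]
  rw [h1, mul_add, mul_add, h2, hpoly_coe]
  ring

/-- The `h`-polynomial is determined by the Hilbert series. -/
theorem h_unique {f : PowerSeries ℤ} {h g : Polynomial ℤ} {m n : ℕ} (h1 : h.eval 1 ≠ 0)
    (g1 : g.eval 1 ≠ 0) (hh : (1 - PowerSeries.X) ^ m * f = (h : PowerSeries ℤ))
    (hg : (1 - PowerSeries.X) ^ n * f = (g : PowerSeries ℤ)) : h = g := by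
  have key : ∀ {a b : Polynomial ℤ} {k l : ℕ}, b.eval 1 ≠ 0 → k ≤ l →
      (1 - PowerSeries.X) ^ k * f = (a : PowerSeries ℤ) →
      (1 - PowerSeries.X) ^ l * f = (b : PowerSeries ℤ) → a = b := by
    intro a b k l hb hkl ea eb
    have e : ((1 - Polynomial.X : Polynomial ℤ) : PowerSeries ℤ) = 1 - PowerSeries.X := by simp
    have h2 : (((1 - Polynomial.X) ^ (l - k) * a : Polynomial ℤ) : PowerSeries ℤ) =
        (b : PowerSeries ℤ) := by
      rw [Polynomial.coe_mul, Polynomial.coe_pow, e, ← ea, ← mul_assoc, ← pow_add,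
        Nat.sub_add_cancel hkl, eb]
    have h3 := Polynomial.coe_injective _ h2
    by_cases hlk : l - k = 0
    · rw [hlk, pow_zero, one_mul] at h3
      exact h3
    · exfalso
      apply hb
      rw [← h3, Polynomial.eval_mul, Polynomial.eval_pow]
      simp [hlk]
  rcases le_total m n with hmn | hmn
  · exact key g1 hmn hh hg
  · exact (key h1 hmn hg hh).symm

end Pool.Agent.TH884.KF

end
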