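import Pool.Agent.TH884.KF.Model
import Pool.Agent.TH884.KF.Filt

/-!
The Koszul filtration of the ring `Q`.
-/

set_option autoImplicit false

open Polynomial

noncomputable section

namespace Pool.Agent.TH884.KF

variable {K : Type} [Field K]

/-- Every polynomial in two variables is its constant coefficient plus a multiple of `c` plus a
multiple of `d`. -/
lemma exists_decomp (p : K[X][X]) : ∃ f g : K[X][X],
    p = C (C (c0 p)) + C X * f + X * g ∧ c0 f = cc p ∧ c0 g = cd p := by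
  refine ⟨C (divX (p.coeff 0)), divX p, ?_, ?_, ?_⟩
  · have h1 := X_mul_divX_add p
    have h2 := X_mul_divX_add (p.coeff 0)
    have h3 : (C (p.coeff 0) : K[X][X]) = C X * C (divX (p.coeff 0)) + C (C (c0 p)) := by
      rw [← C_mul, ← C_add]
      exact congrArg C h2.symm
    calc p = X * divX p + C (p.coeff 0) := h1.symm
      _ = _ := by rw [h3]; ring
  · simp [c0, cc, coeff_divX]
  · simp [c0, cd, coeff_divX]

lemma mul_X_eq_zero {p : K[X][X]} (h : p * X = 0) : p = 0 := by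
  have := mul_eq_zero.1 h
  rcases this with h | h
  · exact h
  · exact absurd h X_ne_zero

namespace Q

lemma ext_iff' {x y : Q K} : x = y ↔ x.p = y.p ∧ x.u = y.u ∧ x.v = y.v ∧ x.s = y.s ∧ x.t = y.t :=
  Q.ext_iff

lemma mem_b (x : Q K) : x ∈ (Ideal.span {b} : Ideal (Q K)) ↔ x.p = 0 ∧ x.u = 0 := by
  rw [Ideal.mem_span_singleton']
  constructor
  · rintro ⟨r, rfl⟩
    simp
  · rintro ⟨h1, h2⟩
    refine ⟨⟨C (C x.v) , x.s, -x.t, 0, 0⟩, ?_⟩
    ext1 <;> simp [h1, h2]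

lemma mem_d (x : Q K) : x ∈ (Ideal.span {d} : Ideal (Q K)) ↔
    x.p.coeff 0 = 0 ∧ x.u = 0 ∧ x.v = 0 ∧ x.s = 0 := by
  rw [Ideal.mem_span_singleton']
  constructor
  · rintro ⟨r, rfl⟩
    simp [mul_coeff_zero]
  · rintro ⟨h1, h2, h3, h4⟩
    obtain ⟨q, hq⟩ := X_dvd_iff.2 h1
    refine ⟨⟨q, x.t, 0, 0, 0⟩, ?_⟩
    ext1 <;> simp [hq, h2, h3, h4, mul_comm]

lemma mem_bd (x : Q K) : x ∈ (Ideal.span {b, d} : Ideal (Q K)) ↔
    x.p.coeff 0 = 0 ∧ x.u = 0 := by
  rw [Ideal.mem_span_pair]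
  constructor
  · rintro ⟨r, s, rfl⟩
    simp [mul_coeff_zero]
  · rintro ⟨h1, h2⟩
    obtain ⟨q, hq⟩ := X_dvd_iff.2 h1
    refine ⟨⟨C (C x.v), x.s, -x.t, 0, 0⟩, ⟨q, 0, 0, 0, 0⟩, ?_⟩
    ext1 <;> simp [hq, h2, mul_comm]

lemma mem_dbc (x : Q K) : x ∈ (Ideal.span {d, b - c} : Ideal (Q K)) ↔
    c0 x.p = 0 ∧ x.u = 0 ∧ x.v + cc x.p = 0 := by
  rw [Ideal.mem_span_pair]
  constructor
  · rintro ⟨r, s, rfl⟩
    simp
  · rintro ⟨h1, h2, h3⟩
    obtain ⟨f, g, h, hf, hg⟩ := exists_decomp x.p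
    refine ⟨⟨g, x.t + cc (-f), 0, 0, 0⟩, ⟨-f, x.s, 0, 0, 0⟩, ?_⟩
    ext1
    · rw [h1] at h
      simp only [add_p, mul_p, d_p, sub_p, b_p, c_p]
      rw [h]
      simp
      ring
    · simp [h2]
    · simp only [add_v, mul_v, d_v, sub_v, b_v, c_v, c0_neg, hf]
      simp
      linear_combination -h3
    · simp
    · simp

lemma mem_ab (x : Q K) : x ∈ (Ideal.span {a, b} : Ideal (Q K)) ↔ x.p = 0 := by
  rw [Ideal.mem_span_pair]
  constructor
  · rintro ⟨r, s, rfl⟩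
    simp
  · intro h1
    refine ⟨⟨C (C x.u), 0, 0, 0, 0⟩, ⟨C (C x.v), x.s, -x.t, 0, 0⟩, ?_⟩
    ext1 <;> simp [h1]

lemma mem_abc (x : Q K) : x ∈ (Ideal.span {a, b, c} : Ideal (Q K)) ↔ (C X : K[X][X]) ∣ x.p := by
  rw [Ideal.mem_span_insert']
  constructor
  · rintro ⟨r, h⟩
    rw [Ideal.mem_span_pair] at h
    obtain ⟨s, t, h⟩ := h
    have h1 := congrArg Q.p h
    simp only [add_p, mul_p, a_p, b_p, c_p, mul_zero, zero_add, add_zero] at h1
    exact ⟨t.p, by rw [← h1, mul_comm]⟩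
  · rintro ⟨f, hf⟩
    refine ⟨-⟨C (C x.u), 0, 0, 0, 0⟩, ?_⟩
    rw [Ideal.mem_span_pair]
    refine ⟨⟨C (C x.v), x.s, -x.t, 0, 0⟩, ⟨f, 0, 0, 0, 0⟩, ?_⟩
    ext1 <;> simp [hf, mul_comm]

/-- The maximal homogeneous ideal. -/
def mm : Ideal (Q K) := Ideal.span {a, b, c, d}

lemma mem_mm (x : Q K) : x ∈ (mm : Ideal (Q K)) ↔ c0 x.p = 0 := by
  rw [mm, Ideal.mem_span_insert']
  constructor
  · rintro ⟨r, h⟩
    rw [Ideal.mem_span_insert'] at h
    obtain ⟨s, h⟩ := h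
    rw [Ideal.mem_span_pair] at h
    obtain ⟨t, w, h⟩ := h
    have h1 := congrArg (fun y => c0 (Q.p y)) h
    simp at h1
    exact h1.symm
  · intro h1
    obtain ⟨f, g, h, -, -⟩ := exists_decomp x.p
    rw [h1] at h
    simp only [map_zero, zero_add] at h
    refine ⟨-⟨C (C x.u), 0, 0, 0, 0⟩, ?_⟩
    rw [Ideal.mem_span_insert']
    refine ⟨-⟨C (C x.v), x.s, -x.t, 0, 0⟩, ?_⟩
    rw [Ideal.mem_span_pair]
    refine ⟨⟨f, 0, 0, 0, 0⟩, ⟨g, 0, 0, 0, 0⟩, ?_⟩
    ext1 <;> simp [h, mul_comm]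

/-- The Koszul filtration. -/
def Fil (I : Ideal (Q K)) : Prop :=
  I = ⊥ ∨ I = Ideal.span {b} ∨ I = Ideal.span {d} ∨ I = Ideal.span {b, d} ∨
    I = Ideal.span {d, b - c} ∨ I = Ideal.span {a, b} ∨ I = Ideal.span {a, b, c} ∨ I = mm

lemma mem_colon (N : Ideal (Q K)) (x r : Q K) :
    r ∈ Submodule.comap (LinearMap.toSpanSingleton (Q K) (Q K) x) N ↔ r * x ∈ N := Iff.rfl

lemma colon_b : Submodule.comap (LinearMap.toSpanSingleton (Q K) (Q K) b) (⊥ : Ideal (Q K)) =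
    Ideal.span {d, b - c} := by
  ext r
  rw [mem_colon, mem_dbc, Ideal.mem_bot, ext_iff']
  simp
  intro _ _
  constructor
  · intro h
    linear_combination -h
  · intro h
    linear_combination -h

lemma colon_d : Submodule.comap (LinearMap.toSpanSingleton (Q K) (Q K) d) (⊥ : Ideal (Q K)) =
    Ideal.span {b} := by
  ext r
  rw [mem_colon, mem_b, Ideal.mem_bot, ext_iff']
  simp

lemma colon_bd : Submodule.comap (LinearMap.toSpanSingleton (Q K) (Q K) d)
    (Ideal.span {b} : Ideal (Q K)) = Ideal.span {a, b} := by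
  ext r
  rw [mem_colon, mem_b, mem_ab]
  simp

lemma colon_dbc : Submodule.comap (LinearMap.toSpanSingleton (Q K) (Q K) (b - c))
    (Ideal.span {d} : Ideal (Q K)) = Ideal.span {b, d} := by
  ext r
  rw [mem_colon, mem_d, mem_bd]
  simp only [mul_p, sub_p, b_p, c_p, zero_sub, mul_u, sub_u, b_u, c_u, sub_self, mul_zero,
    c0_neg, c0_CX, neg_zero, add_zero, mul_v, sub_v, b_v, c_v, sub_zero, mul_one,
    mul_s, sub_s, b_s, c_s, mul_neg, coeff_neg, neg_eq_zero, mul_coeff_zero, coeff_C_zero,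
    zero_add, mul_eq_zero, X_ne_zero, or_false, true_and]
  constructor
  · rintro ⟨h1, h2, h3⟩
    exact ⟨h1, h3⟩
  · rintro ⟨h1, h3⟩
    exact ⟨h1, by simp [c0, h1], h3⟩

lemma colon_ab : Submodule.comap (LinearMap.toSpanSingleton (Q K) (Q K) a)
    (Ideal.span {b} : Ideal (Q K)) = mm := by
  ext r
  rw [mem_colon, mem_b, mem_mm]
  simp

lemma colon_abc : Submodule.comap (LinearMap.toSpanSingleton (Q K) (Q K) c)
    (Ideal.span {a, b} : Ideal (Q K)) = Ideal.span {a, b} := by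
  ext r
  rw [mem_colon, mem_ab, mem_ab]
  simp

lemma colon_abcd : Submodule.comap (LinearMap.toSpanSingleton (Q K) (Q K) d)
    (Ideal.span {a, b, c} : Ideal (Q K)) = Ideal.span {a, b, c} := by
  ext r
  rw [mem_colon, mem_abc, mem_abc]
  simp only [mul_p, d_p]
  rw [C_dvd_iff_dvd_coeff, C_dvd_iff_dvd_coeff]
  constructor
  · intro h i
    have := h (i + 1)
    rwa [coeff_mul_X] at this
  · intro h i
    cases i with
    | zero => simp
    | succ i => rw [coeff_mul_X]; exact h i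

/-- The ideals of the filtration have linear quotients. -/
theorem fil_lf {L : Q K → Prop} (ha : L a) (hb : L b) (hc : L c) (hd : L d) (hbc : L (b - c))
    (I : Ideal (Q K)) (hI : Fil I) : LF Fil L I := by
  have F0 : Fil (⊥ : Ideal (Q K)) := Or.inl rfl
  have Fb : Fil (Ideal.span {b} : Ideal (Q K)) := Or.inr (Or.inl rfl)
  have Fd : Fil (Ideal.span {d} : Ideal (Q K)) := Or.inr (Or.inr (Or.inl rfl))
  have Fbd : Fil (Ideal.span {b, d} : Ideal (Q K)) := Or.inr (Or.inr (Or.inr (Or.inl rfl)))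
  have Fdbc : Fil (Ideal.span {d, b - c} : Ideal (Q K)) :=
    Or.inr (Or.inr (Or.inr (Or.inr (Or.inl rfl))))
  have Fab : Fil (Ideal.span {a, b} : Ideal (Q K)) :=
    Or.inr (Or.inr (Or.inr (Or.inr (Or.inr (Or.inl rfl)))))
  have Fabc : Fil (Ideal.span {a, b, c} : Ideal (Q K)) :=
    Or.inr (Or.inr (Or.inr (Or.inr (Or.inr (Or.inr (Or.inl rfl))))))
  have Fm : Fil (mm : Ideal (Q K)) :=
    Or.inr (Or.inr (Or.inr (Or.inr (Or.inr (Or.inr (Or.inr rfl))))))
  have Lb : LF Fil L (Ideal.span {b} : Ideal (Q K)) := by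
    have := LF.step (F := Fil) (P := L) (⊥ : Ideal (Q K)) b LF.bot hb (by rw [colon_b]; exact Fdbc)
    rwa [bot_sup_eq] at this
  have Ld : LF Fil L (Ideal.span {d} : Ideal (Q K)) := by
    have := LF.step (F := Fil) (P := L) (⊥ : Ideal (Q K)) d LF.bot hd (by rw [colon_d]; exact Fb)
    rwa [bot_sup_eq] at this
  have Lbd : LF Fil L (Ideal.span {b, d} : Ideal (Q K)) := by
    have := LF.step (F := Fil) (P := L) _ d Lb hd (by rw [colon_bd]; exact Fab)
    rw [Ideal.span_insert]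
    exact this
  have Ldbc : LF Fil L (Ideal.span {d, b - c} : Ideal (Q K)) := by
    have := LF.step (F := Fil) (P := L) _ (b - c) Ld hbc (by rw [colon_dbc]; exact Fbd)
    rw [Ideal.span_insert]
    exact this
  have Lab : LF Fil L (Ideal.span {a, b} : Ideal (Q K)) := by
    have := LF.step (F := Fil) (P := L) _ a Lb ha (by rw [colon_ab]; exact Fm)
    rw [Ideal.span_insert, sup_comm]
    exact this
  have Labc : LF Fil L (Ideal.span {a, b, c} : Ideal (Q K)) := by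
    have := LF.step (F := Fil) (P := L) _ c Lab hc (by rw [colon_abc]; exact Fab)
    have e : (Ideal.span {a, b, c} : Ideal (Q K)) = Ideal.span {a, b} ⊔ Ideal.span {c} := by
      rw [Ideal.span_insert, Ideal.span_insert, Ideal.span_insert, sup_assoc]
    rw [e]
    exact this
  have Lm : LF Fil L (mm : Ideal (Q K)) := by
    have := LF.step (F := Fil) (P := L) _ d Labc hd (by rw [colon_abcd]; exact Fabc)
    have e : (mm : Ideal (Q K)) = Ideal.span {a, b, c} ⊔ Ideal.span {d} := by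
      rw [mm, Ideal.span_insert, Ideal.span_insert, Ideal.span_insert, Ideal.span_insert,
        Ideal.span_insert, sup_assoc, sup_assoc]
    rw [e]
    exact this
  rcases hI with rfl | rfl | rfl | rfl | rfl | rfl | rfl | rfl
  · exact LF.bot
  · exact Lb
  · exact Ld
  · exact Lbd
  · exact Ldbc
  · exact Lab
  · exact Labc
  · exact Lm

end Q

end Pool.Agent.TH884.KF

end
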