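import Mathlib

/-!
The ring `Q = K[c, d] ⊕ K a ⊕ K b ⊕ K ab ⊕ K ad` with `a^2 = ac = bd = 0`, `b^2 = bc = -ad`.
-/

set_option autoImplicit false

open Polynomial

noncomputable section

namespace Pool.Agent.TH884.KF

variable (K : Type) [Field K]

/-- The elements `p(c, d) + u a + v b + s ab + t ad`; here `K[c, d]` is `K[X][X]`, the inner
variable is `c` and the outer variable is `d`. -/
@[ext] structure Q where
  p : K[X][X]
  u : K
  v : K
  s : K
  t : K

variable {K}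

/-- The constant coefficient. -/
def c0 (p : K[X][X]) : K := (p.coeff 0).coeff 0

/-- The coefficient of `c`. -/
def cc (p : K[X][X]) : K := (p.coeff 0).coeff 1

/-- The coefficient of `d`. -/
def cd (p : K[X][X]) : K := (p.coeff 1).coeff 0

@[simp] lemma c0_zero : c0 (0 : K[X][X]) = 0 := by simp [c0]
@[simp] lemma cc_zero : cc (0 : K[X][X]) = 0 := by simp [cc]
@[simp] lemma cd_zero : cd (0 : K[X][X]) = 0 := by simp [cd]
@[simp] lemma c0_one : c0 (1 : K[X][X]) = 1 := by simp [c0]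
@[simp] lemma cc_one : cc (1 : K[X][X]) = 0 := by simp [cc, coeff_one]
@[simp] lemma cd_one : cd (1 : K[X][X]) = 0 := by simp [cd, coeff_one]
@[simp] lemma c0_add (p q : K[X][X]) : c0 (p + q) = c0 p + c0 q := by simp [c0]
@[simp] lemma cc_add (p q : K[X][X]) : cc (p + q) = cc p + cc q := by simp [cc]
@[simp] lemma cd_add (p q : K[X][X]) : cd (p + q) = cd p + cd q := by simp [cd]
@[simp] lemma c0_neg (p : K[X][X]) : c0 (-p) = -c0 p := by simp [c0]
@[simp] lemma cc_neg (p : K[X][X]) : cc (-p) = -cc p := by simp [cc]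
@[simp] lemma cd_neg (p : K[X][X]) : cd (-p) = -cd p := by simp [cd]
@[simp] lemma c0_mul (p q : K[X][X]) : c0 (p * q) = c0 p * c0 q := by
  simp [c0, mul_coeff_zero]
@[simp] lemma cc_mul (p q : K[X][X]) : cc (p * q) = c0 p * cc q + cc p * c0 q := by
  simp [c0, cc, mul_coeff_zero, mul_coeff_one]
@[simp] lemma cd_mul (p q : K[X][X]) : cd (p * q) = c0 p * cd q + cd p * c0 q := by
  simp [c0, cd, mul_coeff_zero, mul_coeff_one]
@[simp] lemma c0_C (k : K) : c0 (C (C k) : K[X][X]) = k := by simp [c0]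
@[simp] lemma cc_C (k : K) : cc (C (C k) : K[X][X]) = 0 := by simp [cc, coeff_C]
@[simp] lemma cd_C (k : K) : cd (C (C k) : K[X][X]) = 0 := by simp [cd]
@[simp] lemma c0_CX : c0 (C X : K[X][X]) = 0 := by simp [c0]
@[simp] lemma cc_CX : cc (C X : K[X][X]) = 1 := by simp [cc]
@[simp] lemma cd_CX : cd (C X : K[X][X]) = 0 := by simp [cd]
@[simp] lemma c0_X : c0 (X : K[X][X]) = 0 := by simp [c0]
@[simp] lemma cc_X : cc (X : K[X][X]) = 0 := by simp [cc]
@[simp] lemma cd_X : cd (X : K[X][X]) = 1 := by simp [cd]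

namespace Q

instance : Zero (Q K) := ⟨⟨0, 0, 0, 0, 0⟩⟩
instance : One (Q K) := ⟨⟨1, 0, 0, 0, 0⟩⟩
instance : Add (Q K) := ⟨fun x y => ⟨x.p + y.p, x.u + y.u, x.v + y.v, x.s + y.s, x.t + y.t⟩⟩
instance : Neg (Q K) := ⟨fun x => ⟨-x.p, -x.u, -x.v, -x.s, -x.t⟩⟩
instance : Mul (Q K) := ⟨fun x y => ⟨x.p * y.p, c0 x.p * y.u + x.u * c0 y.p,
  c0 x.p * y.v + x.v * c0 y.p, c0 x.p * y.s + x.s * c0 y.p + (x.u * y.v + x.v * y.u),
  c0 x.p * y.t + x.t * c0 y.p + (cd x.p * y.u + x.u * cd y.p) - (cc x.p * y.v + x.v * cc y.p) -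
    x.v * y.v⟩⟩

@[simp] lemma zero_p : (0 : Q K).p = 0 := rfl
@[simp] lemma zero_u : (0 : Q K).u = 0 := rfl
@[simp] lemma zero_v : (0 : Q K).v = 0 := rfl
@[simp] lemma zero_s : (0 : Q K).s = 0 := rfl
@[simp] lemma zero_t : (0 : Q K).t = 0 := rfl
@[simp] lemma one_p : (1 : Q K).p = 1 := rfl
@[simp] lemma one_u : (1 : Q K).u = 0 := rfl
@[simp] lemma one_v : (1 : Q K).v = 0 := rfl
@[simp] lemma one_s : (1 : Q K).s = 0 := rfl
@[simp] lemma one_t : (1 : Q K).t = 0 := rfl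

section

variable (x y : Q K)

@[simp] lemma add_p : (x + y).p = x.p + y.p := rfl
@[simp] lemma add_u : (x + y).u = x.u + y.u := rfl
@[simp] lemma add_v : (x + y).v = x.v + y.v := rfl
@[simp] lemma add_s : (x + y).s = x.s + y.s := rfl
@[simp] lemma add_t : (x + y).t = x.t + y.t := rfl
@[simp] lemma neg_p : (-x).p = -x.p := rfl
@[simp] lemma neg_u : (-x).u = -x.u := rfl
@[simp] lemma neg_v : (-x).v = -x.v := rfl
@[simp] lemma neg_s : (-x).s = -x.s := rfl
@[simp] lemma neg_t : (-x).t = -x.t := rfl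
@[simp] lemma mul_p : (x * y).p = x.p * y.p := rfl
@[simp] lemma mul_u : (x * y).u = c0 x.p * y.u + x.u * c0 y.p := rfl
@[simp] lemma mul_v : (x * y).v = c0 x.p * y.v + x.v * c0 y.p := rfl
@[simp] lemma mul_s : (x * y).s =
    c0 x.p * y.s + x.s * c0 y.p + (x.u * y.v + x.v * y.u) := rfl
@[simp] lemma mul_t : (x * y).t = c0 x.p * y.t + x.t * c0 y.p +
    (cd x.p * y.u + x.u * cd y.p) - (cc x.p * y.v + x.v * cc y.p) - x.v * y.v := rfl

end

instance : CommRing (Q K) where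
  add_assoc x y z := by ext1 <;> simp <;> ring
  zero_add x := by ext1 <;> simp
  add_zero x := by ext1 <;> simp
  add_comm x y := by ext1 <;> simp <;> ring
  neg_add_cancel x := by ext1 <;> simp
  left_distrib x y z := by ext1 <;> simp <;> ring
  right_distrib x y z := by ext1 <;> simp <;> ring
  zero_mul x := by ext1 <;> simp
  mul_zero x := by ext1 <;> simp
  mul_assoc x y z := by ext1 <;> simp <;> ring
  one_mul x := by ext1 <;> simp
  mul_one x := by ext1 <;> simp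
  mul_comm x y := by ext1 <;> simp <;> ring
  nsmul := nsmulRec
  zsmul := zsmulRec

section

variable (x y : Q K)

@[simp] lemma sub_p : (x - y).p = x.p - y.p := by rw [sub_eq_add_neg]; simp [sub_eq_add_neg]
@[simp] lemma sub_u : (x - y).u = x.u - y.u := by rw [sub_eq_add_neg]; simp [sub_eq_add_neg]
@[simp] lemma sub_v : (x - y).v = x.v - y.v := by rw [sub_eq_add_neg]; simp [sub_eq_add_neg]
@[simp] lemma sub_s : (x - y).s = x.s - y.s := by rw [sub_eq_add_neg]; simp [sub_eq_add_neg]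
@[simp] lemma sub_t : (x - y).t = x.t - y.t := by rw [sub_eq_add_neg]; simp [sub_eq_add_neg]

end

/-- The polynomials in `c` and `d`. -/
def ofP : K[X][X] →+* Q K where
  toFun p := ⟨p, 0, 0, 0, 0⟩
  map_one' := rfl
  map_zero' := rfl
  map_add' x y := by ext1 <;> simp
  map_mul' x y := by ext1 <;> simp

@[simp] lemma ofP_p (p : K[X][X]) : (ofP p).p = p := rfl
@[simp] lemma ofP_u (p : K[X][X]) : (ofP p).u = 0 := rfl
@[simp] lemma ofP_v (p : K[X][X]) : (ofP p).v = 0 := rfl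
@[simp] lemma ofP_s (p : K[X][X]) : (ofP p).s = 0 := rfl
@[simp] lemma ofP_t (p : K[X][X]) : (ofP p).t = 0 := rfl

/-- The constants. -/
def scal : K →+* Q K := (ofP.comp C).comp C

instance : Algebra K (Q K) := scal.toAlgebra

lemma algebraMap_eq (k : K) : algebraMap K (Q K) k = ofP (C (C k)) := rfl

lemma smul_eq (k : K) (x : Q K) : k • x = ofP (C (C k)) * x := rfl

@[simp] lemma smul_p (k : K) (x : Q K) : (k • x).p = C (C k) * x.p := by simp [smul_eq]
@[simp] lemma smul_u (k : K) (x : Q K) : (k • x).u = k * x.u := by simp [smul_eq]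
@[simp] lemma smul_v (k : K) (x : Q K) : (k • x).v = k * x.v := by simp [smul_eq]
@[simp] lemma smul_s (k : K) (x : Q K) : (k • x).s = k * x.s := by simp [smul_eq]
@[simp] lemma smul_t (k : K) (x : Q K) : (k • x).t = k * x.t := by simp [smul_eq]

/-- The element `a`. -/
def a : Q K := ⟨0, 1, 0, 0, 0⟩
/-- The element `b`. -/
def b : Q K := ⟨0, 0, 1, 0, 0⟩
/-- The element `c`. -/
def c : Q K := ofP (C X)
/-- The element `d`. -/
def d : Q K := ofP X

@[simp] lemma a_p : (a : Q K).p = 0 := rfl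
@[simp] lemma a_u : (a : Q K).u = 1 := rfl
@[simp] lemma a_v : (a : Q K).v = 0 := rfl
@[simp] lemma a_s : (a : Q K).s = 0 := rfl
@[simp] lemma a_t : (a : Q K).t = 0 := rfl
@[simp] lemma b_p : (b : Q K).p = 0 := rfl
@[simp] lemma b_u : (b : Q K).u = 0 := rfl
@[simp] lemma b_v : (b : Q K).v = 1 := rfl
@[simp] lemma b_s : (b : Q K).s = 0 := rfl
@[simp] lemma b_t : (b : Q K).t = 0 := rfl
@[simp] lemma c_p : (c : Q K).p = C X := rfl
@[simp] lemma c_u : (c : Q K).u = 0 := rfl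
@[simp] lemma c_v : (c : Q K).v = 0 := rfl
@[simp] lemma c_s : (c : Q K).s = 0 := rfl
@[simp] lemma c_t : (c : Q K).t = 0 := rfl
@[simp] lemma d_p : (d : Q K).p = X := rfl
@[simp] lemma d_u : (d : Q K).u = 0 := rfl
@[simp] lemma d_v : (d : Q K).v = 0 := rfl
@[simp] lemma d_s : (d : Q K).s = 0 := rfl
@[simp] lemma d_t : (d : Q K).t = 0 := rfl

/-- The relations of the algebra. -/
lemma relations : (a : Q K) ^ 2 = 0 ∧ (a * c : Q K) = 0 ∧ (b * d : Q K) = 0 ∧
    (b ^ 2 + a * d : Q K) = 0 ∧ (b * c + a * d : Q K) = 0 := by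
  refine ⟨?_, ?_, ?_, ?_, ?_⟩ <;> (ext1 <;> simp [pow_two])

end Q

end Pool.Agent.TH884.KF

end
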