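import Mathlib

/-!
Hilbert series of quadratic monomial algebras.
-/

set_option autoImplicit false

noncomputable section

namespace Pool.Agent.TH884.KF

open Finset

section Count

variable {K : Type} [Field K] {m : ℕ}

/-- The monomial `x ^ α` is divisible by none of the monomials `x ^ e`, `e ∈ E`. -/
def OkE (E : Set (Fin m →₀ ℕ)) (α : Fin m →₀ ℕ) : Prop := ∀ e ∈ E, ¬ e ≤ α

open Classical in
/-- The exponents of the monomials of degree `j` which are not in the ideal. -/
def Std (E : Set (Fin m →₀ ℕ)) (j : ℕ) : Finset (Fin m →₀ ℕ) :=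
  (Finset.finsuppAntidiag Finset.univ j).filter (OkE E)

lemma mem_Std {E : Set (Fin m →₀ ℕ)} {j : ℕ} {α : Fin m →₀ ℕ} :
    α ∈ Std E j ↔ ∑ i, α i = j ∧ OkE E α := by
  simp [Std, Finset.mem_finsuppAntidiag]

/-- The Hilbert function of a monomial algebra. -/
theorem finrank_monomial (E : Set (Fin m →₀ ℕ)) (j : ℕ) : Module.finrank K
    (Submodule.map (Ideal.Quotient.mkₐ K
      (Ideal.span ((fun e => MvPolynomial.monomial e (1 : K)) '' E))).toLinearMap
      (MvPolynomial.homogeneousSubmodule (Fin m) K j)) = (Std E j).card := by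
  classical
  set I : Ideal (MvPolynomial (Fin m) K) :=
    Ideal.span ((fun e => MvPolynomial.monomial e (1 : K)) '' E) with hI
  have hmem : ∀ x : MvPolynomial (Fin m) K, x ∈ I ↔ ∀ xi ∈ x.support, ∃ si ∈ E, si ≤ xi :=
    fun x => MvPolynomial.mem_ideal_span_monomial_image
  let v : Std E j → MvPolynomial (Fin m) K ⧸ I :=
    fun α => Ideal.Quotient.mkₐ K I (MvPolynomial.monomial α.1 1)
  have hli : LinearIndependent K v := by
    rw [Fintype.linearIndependent_iff]
    intro g hg α
    have h1 : Ideal.Quotient.mkₐ K I (∑ β : Std E j, g β • MvPolynomial.monomial β.1 (1 : K)) =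
        0 := by
      rw [map_sum, ← hg]
      refine Finset.sum_congr rfl fun β _ => ?_
      rw [map_smul]
    have h2 : (∑ β : Std E j, g β • MvPolynomial.monomial β.1 (1 : K)) ∈ I := by
      rwa [Ideal.Quotient.mkₐ_eq_mk, Ideal.Quotient.eq_zero_iff_mem] at h1
    by_contra hne
    have hco : (∑ β : Std E j, g β • MvPolynomial.monomial β.1 (1 : K)).coeff α.1 = g α := by
      rw [MvPolynomial.coeff_sum, Finset.sum_eq_single α]
      · simp
      · intro β _ hβ
        rw [MvPolynomial.coeff_smul, MvPolynomial.coeff_monomial, if_neg, smul_zero]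
        exact fun h => hβ (Subtype.ext h)
      · simp
    obtain ⟨e, he, hle⟩ := (hmem _).1 h2 α.1 (by
      rw [MvPolynomial.mem_support_iff, hco]
      exact hne)
    exact (mem_Std.1 α.2).2 e he hle
  have hspan : Submodule.map (Ideal.Quotient.mkₐ K I).toLinearMap
      (MvPolynomial.homogeneousSubmodule (Fin m) K j) = Submodule.span K (Set.range v) := by
    apply le_antisymm
    · rintro _ ⟨p, hp, rfl⟩
      have hp' : p.IsHomogeneous j := hp
      rw [MvPolynomial.as_sum p, map_sum]
      refine Submodule.sum_mem _ fun α hα => ?_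
      have hdeg : ∑ i, α i = j := by
        have := hp' (MvPolynomial.mem_support_iff.1 hα)
        rw [← this, Finsupp.weight_apply, Finsupp.sum_fintype]
        · simp
        · simp
      have e1 : (MvPolynomial.monomial α (p.coeff α) : MvPolynomial (Fin m) K) =
          p.coeff α • MvPolynomial.monomial α 1 := by
        rw [MvPolynomial.smul_monomial, smul_eq_mul, mul_one]
      rw [e1, map_smul]
      refine Submodule.smul_mem _ _ ?_
      by_cases hok : OkE E α
      · exact Submodule.subset_span ⟨⟨α, mem_Std.2 ⟨hdeg, hok⟩⟩, rfl⟩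
      · have : (MvPolynomial.monomial α (1 : K)) ∈ I := by
          rw [hmem]
          intro x hx
          have hxα : x = α := by
            have := MvPolynomial.support_monomial_subset hx
            simpa using this
          rw [hxα]
          unfold OkE at hok
          push Not at hok
          exact hok
        have h0 : (Ideal.Quotient.mkₐ K I).toLinearMap (MvPolynomial.monomial α (1 : K)) = 0 := by
          change Ideal.Quotient.mk I _ = 0
          rwa [Ideal.Quotient.eq_zero_iff_mem]
        rw [h0]
        exact zero_mem _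
    · rw [Submodule.span_le]
      rintro _ ⟨α, rfl⟩
      refine ⟨MvPolynomial.monomial α.1 1, ?_, rfl⟩
      refine MvPolynomial.isHomogeneous_monomial _ ?_
      rw [Finsupp.degree_eq_sum]
      exact (mem_Std.1 α.2).1
  rw [hspan, finrank_span_eq_card hli, Fintype.card_coe]

end Count

section Series

variable {m : ℕ}

/-- The truncation of an exponent. -/
def cl (n : ℕ) : Fin 3 := if n = 0 then 0 else if n = 1 then 1 else 2

lemma cl_val (n : ℕ) : (cl n : ℕ) = min n 2 := by
  unfold cl
  split_ifs with h1 h2
  · simp [h1]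
  · simp [h2]
  · simp; omega

/-- The state `s` is divisible by none of the monomials of `E`. -/
def OkS (E : Set (Fin m →₀ ℕ)) (s : Fin m → Fin 3) : Prop :=
  ∀ e ∈ E, ∃ i, (s i : ℕ) < e i

lemma okE_iff {E : Set (Fin m →₀ ℕ)} (hE : ∀ e ∈ E, ∀ i, e i ≤ 2) (l : Fin m →₀ ℕ) :
    OkE E l ↔ OkS E (fun i => cl (l i)) := by
  unfold OkE OkS
  refine forall₂_congr fun e he => ?_
  rw [Finsupp.le_def]
  push Not
  refine exists_congr fun i => ?_
  rw [cl_val]
  have := hE e he i
  omega

/-- The generating functions of the classes of exponents. -/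
def fS (t : Fin 3) : PowerSeries ℤ := PowerSeries.mk fun n => if cl n = t then 1 else 0

/-- The generating functions of the classes of exponents, multiplied by `1 - X`. -/
def gP (t : Fin 3) : Polynomial ℤ :=
  ![1 - Polynomial.X, Polynomial.X * (1 - Polynomial.X), Polynomial.X ^ 2] t

lemma mul_fS (t : Fin 3) : (1 - PowerSeries.X) * fS t = (gP t : PowerSeries ℤ) := by
  ext n
  rw [sub_mul, one_mul, map_sub]
  rcases n with _ | _ | _ | n
  · fin_cases t <;> simp [fS, gP, cl]
  · rw [PowerSeries.coeff_succ_X_mul]
    fin_cases t <;> simp [fS, gP, cl, mul_sub]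
  · rw [PowerSeries.coeff_succ_X_mul]
    fin_cases t <;> simp [fS, gP, cl, mul_sub, PowerSeries.coeff_one, PowerSeries.coeff_X, ← pow_two, PowerSeries.coeff_X_pow]
  · rw [PowerSeries.coeff_succ_X_mul]
    fin_cases t <;> simp [fS, gP, cl, mul_sub, PowerSeries.coeff_one, PowerSeries.coeff_X, ← pow_two, PowerSeries.coeff_X_pow]

end Series

end Pool.Agent.TH884.KF

end
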