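import Pool.Agent.TH884.KF.Grade

/-!
The algebra `K[x_1, ..., x_4]/J ≅ Q`: the linear free resolution of its residue field.
-/

set_option autoImplicit false

noncomputable section

namespace Pool.Agent.TH884.KF

open Pool.Agent.Results.MP_49092c_al.Disproof (LiftProp IsForm liftProp)

section

variable {R R' : Type} [CommRing R] [CommRing R']

lemma liftProp_of_equiv (e : R ≃+* R') (L : R → Prop) (h : LiftProp L) :
    LiftProp (fun x : R' => L (e.symm x)) := by
  intro m m' A a c w hA ha hc hw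
  obtain ⟨w', h1, h2⟩ := h m m' (A.map e.symm) (e.symm ∘ a) (e.symm c) (e.symm ∘ w) hA ha hc (by
    funext i
    have := congrArg e.symm (congrFun hw i)
    rw [Pi.smul_apply, smul_eq_mul, map_mul] at this
    rw [Pi.smul_apply, smul_eq_mul, Function.comp_apply, ← this]
    exact (RingHom.map_mulVec (e.symm : R' →+* R) A w i).symm)
  refine ⟨e ∘ w', fun j => by simpa using h1 j, ?_⟩
  funext i
  have := congrArg e (congrFun h2 i)
  rw [Pi.smul_apply, smul_eq_mul, map_mul, Function.comp_apply, RingEquiv.apply_symm_apply,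
    RingEquiv.apply_symm_apply] at this
  rw [Pi.smul_apply, smul_eq_mul, ← this]
  have h3 := RingHom.map_mulVec (e : R →+* R') (A.map e.symm) w' i
  have h4 : (A.map e.symm).map (e : R →+* R') = A := by
    ext a b
    simp
  rw [h4] at h3
  exact h3.symm

lemma mulVec_symm (e : R ≃+* R') {m n : ℕ} (A : Matrix (Fin m) (Fin n) R') (v : Fin n → R) :
    Matrix.mulVec (A.map e.symm) v = e.symm ∘ Matrix.mulVec A (e ∘ v) := by
  funext i
  have h3 := RingHom.map_mulVec (e.symm : R' →+* R) A (e ∘ v) i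
  have h4 : ((e.symm : R' →+* R) ∘ (e ∘ v) : Fin n → R) = v := by
    funext j
    simp
  rw [h4] at h3
  exact h3.symm

lemma exists_mulVec_symm (e : R ≃+* R') {m n : ℕ} (A : Matrix (Fin m) (Fin n) R')
    (u : Fin m → R) : (∃ w, Matrix.mulVec (A.map e.symm) w = u) ↔
      ∃ w, Matrix.mulVec A w = e ∘ u := by
  constructor
  · rintro ⟨w, rfl⟩
    refine ⟨e ∘ w, ?_⟩
    rw [mulVec_symm]
    funext i
    simp
  · rintro ⟨w, hw⟩
    refine ⟨e.symm ∘ w, ?_⟩
    rw [mulVec_symm]
    have h4 : (e ∘ (e.symm ∘ w) : Fin n → R') = w := by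
      funext j
      simp
    rw [h4, hw]
    funext i
    simp

lemma mulVec_symm_eq_zero (e : R ≃+* R') {m n : ℕ} (A : Matrix (Fin m) (Fin n) R')
    (v : Fin n → R) : Matrix.mulVec (A.map e.symm) v = 0 ↔ Matrix.mulVec A (e ∘ v) = 0 := by
  rw [mulVec_symm]
  constructor
  · intro h
    funext i
    have := congrFun h i
    simpa using this
  · intro h
    funext i
    have := congrFun h i
    simp [this]

end

variable {K : Type} [Field K]

lemma ofP_mem (p : Polynomial (Polynomial K)) : Q.ofP p ∈ (phi (K := K)).range := by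
  have hd : Q.ofP Polynomial.X ∈ (phi (K := K)).range := ⟨MvPolynomial.X 3, phi_X3⟩
  have hc : Q.ofP (Polynomial.C Polynomial.X) ∈ (phi (K := K)).range :=
    ⟨MvPolynomial.X 2, phi_X2⟩
  have hk : ∀ k : K, Q.ofP (Polynomial.C (Polynomial.C k)) ∈ (phi (K := K)).range :=
    fun k => ⟨MvPolynomial.C k, phi_C k⟩
  induction p using Polynomial.induction_on' with
  | add p q hp hq =>
    rw [map_add]
    exact add_mem hp hq
  | monomial n q =>
    rw [← Polynomial.C_mul_X_pow_eq_monomial, map_mul, map_pow]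
    refine mul_mem ?_ (pow_mem hd n)
    induction q using Polynomial.induction_on' with
    | add p q hp hq =>
      rw [map_add, map_add]
      exact add_mem hp hq
    | monomial n q =>
      rw [← Polynomial.C_mul_X_pow_eq_monomial, map_mul, map_mul, map_pow, map_pow]
      exact mul_mem (hk q) (pow_mem hc n)

lemma phi_surj : Function.Surjective (phi (K := K)) := by
  intro x
  have h : x ∈ (phi (K := K)).range := by
    have ha : (Q.a : Q K) ∈ (phi (K := K)).range := ⟨MvPolynomial.X 0, phi_X0⟩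
    have hb : (Q.b : Q K) ∈ (phi (K := K)).range := ⟨MvPolynomial.X 1, phi_X1⟩
    have hd : (Q.d : Q K) ∈ (phi (K := K)).range := ⟨MvPolynomial.X 3, phi_X3⟩
    have e : x = Q.ofP x.p + x.u • Q.a + x.v • Q.b + x.s • (Q.a * Q.b) + x.t • (Q.a * Q.d) := by
      ext1 <;> simp
    rw [e]
    exact add_mem (add_mem (add_mem (add_mem (ofP_mem _) (Subalgebra.smul_mem _ ha _))
      (Subalgebra.smul_mem _ hb _)) (Subalgebra.smul_mem _ (mul_mem ha hb) _))
      (Subalgebra.smul_mem _ (mul_mem ha hd) _)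
  exact h

/-- The algebra is isomorphic to `Q`. -/
def iso (K : Type) [Field K] : (MvPolynomial (Fin 4) K ⧸ J K) ≃ₐ[K] Q K :=
  Ideal.quotientKerAlgEquivOfSurjective phi_surj

lemma iso_mk (p : MvPolynomial (Fin 4) K) : iso K (Ideal.Quotient.mk (J K) p) = phi p := rfl

lemma iso_symm (p : MvPolynomial (Fin 4) K) : (iso K).symm (phi p) = Ideal.Quotient.mk (J K) p := by
  rw [AlgEquiv.symm_apply_eq, iso_mk]

/-- The augmentation. -/
def augQ : Q K →ₐ[K] K where
  toFun x := c0 x.p
  map_one' := by simp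
  map_zero' := by simp
  map_add' x y := by simp
  map_mul' x y := by simp
  commutes' r := by
    rw [Q.algebraMap_eq]
    simp

lemma c0_phi (p : MvPolynomial (Fin 4) K) : c0 (phi p).p = MvPolynomial.constantCoeff p := by
  have h : (augQ.comp phi : MvPolynomial (Fin 4) K →ₐ[K] K) = MvPolynomial.aeval 0 := by
    apply MvPolynomial.algHom_ext
    intro i
    rw [MvPolynomial.aeval_X, AlgHom.comp_apply]
    fin_cases i
    · simp [augQ]
    · simp [augQ]
    · simp [augQ]
    · simp [augQ]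
  have h1 := DFunLike.congr_fun h p
  rw [AlgHom.comp_apply, MvPolynomial.aeval_zero] at h1
  simpa [augQ] using h1

lemma mem_max_iff (x : MvPolynomial (Fin 4) K ⧸ J K) :
    x ∈ Ideal.map (Ideal.Quotient.mk (J K))
      (RingHom.ker (MvPolynomial.constantCoeff : MvPolynomial (Fin 4) K →+* K)) ↔
    iso K x ∈ Q.mm := by
  rw [Q.mem_mm, Ideal.mem_map_iff_of_surjective _ Ideal.Quotient.mk_surjective]
  constructor
  · rintro ⟨p, hp, rfl⟩
    rw [iso_mk, c0_phi]
    exact hp
  · intro h
    obtain ⟨p, rfl⟩ := Ideal.Quotient.mk_surjective x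
    rw [iso_mk, c0_phi] at h
    exact ⟨p, h, rfl⟩

/-- The residue field of the algebra has a linear free resolution. -/
theorem koszul : ∃ (b : ℕ → ℕ)
    (M : ∀ i : ℕ, Matrix (Fin (b i)) (Fin (b (i + 1))) (MvPolynomial (Fin 4) K ⧸ J K)),
    b 0 = 1 ∧
    (∀ (i : ℕ) (r : Fin (b i)) (c : Fin (b (i + 1))),
      ∃ p : MvPolynomial (Fin 4) K, p.IsHomogeneous 1 ∧ Ideal.Quotient.mk (J K) p = M i r c) ∧
    (∀ u : Fin (b 0) → MvPolynomial (Fin 4) K ⧸ J K,
      (∃ w, Matrix.mulVec (M 0) w = u) ↔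
        ∀ r, u r ∈ Ideal.map (Ideal.Quotient.mk (J K))
          (RingHom.ker (MvPolynomial.constantCoeff : MvPolynomial (Fin 4) K →+* K))) ∧
    (∀ (i : ℕ) (v : Fin (b (i + 1)) → MvPolynomial (Fin 4) K ⧸ J K),
      Matrix.mulVec (M i) v = 0 ↔ ∃ w, Matrix.mulVec (M (i + 1)) w = v) := by
  let e : (MvPolynomial (Fin 4) K ⧸ J K) ≃+* Q K := (iso K).toRingEquiv
  let L : Q K → Prop := fun x => IsForm (J K) 1 (e.symm x)
  have hL : ∀ p : MvPolynomial (Fin 4) K, p.IsHomogeneous 1 → L (phi p) := by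
    intro p hp
    exact ⟨p, hp, (iso_symm p).symm⟩
  have h0 : L 0 := by
    have := hL 0 (MvPolynomial.isHomogeneous_zero _ _ _)
    rwa [map_zero] at this
  have hneg : ∀ r, L r → L (-r) := by
    intro r hr
    have := Pool.Agent.Results.MP_49092c_al.Disproof.IsForm.neg hr
    change IsForm (J K) 1 (e.symm (-r))
    rw [map_neg]
    exact this
  have hlift : LiftProp L := liftProp_of_equiv e _ (liftProp J_hom)
  have ha : L Q.a := by
    rw [← phi_X0]
    exact hL _ (MvPolynomial.isHomogeneous_X _ _)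
  have hb : L Q.b := by
    rw [← phi_X1]
    exact hL _ (MvPolynomial.isHomogeneous_X _ _)
  have hc : L Q.c := by
    rw [← phi_X2]
    exact hL _ (MvPolynomial.isHomogeneous_X _ _)
  have hd : L Q.d := by
    rw [← phi_X3]
    exact hL _ (MvPolynomial.isHomogeneous_X _ _)
  have hbc : L (Q.b - Q.c) := by
    rw [← phi_X1, ← phi_X2, ← map_sub]
    exact hL _ ((MvPolynomial.isHomogeneous_X _ _).sub (MvPolynomial.isHomogeneous_X _ _))
  obtain ⟨b, M, hb0, h1, h2, h3⟩ := exists_resolution (L := L) (F := Q.Fil) h0 hneg hlift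
    (fun C hC => Q.fil_lf ha hb hc hd hbc C hC) Q.mm
    (Or.inr (Or.inr (Or.inr (Or.inr (Or.inr (Or.inr (Or.inr rfl)))))))
  refine ⟨b, fun i => (M i).map e.symm, hb0, fun i r c => h1 i r c, ?_, ?_⟩
  · intro u
    rw [exists_mulVec_symm, h2]
    refine forall_congr' fun r => ?_
    rw [mem_max_iff]
    rfl
  · intro i v
    rw [mulVec_symm_eq_zero, exists_mulVec_symm, h3]

end Pool.Agent.TH884.KF

end
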