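import Pool.Agent.TH884.KF.Mono

/-!
The Hilbert series of a quadratic monomial algebra as a sum over states.
-/

set_option autoImplicit false

noncomputable section

namespace Pool.Agent.TH884.KF

open Finset

variable {m : ℕ}

open Classical in
/-- The states which are not divisible by a monomial of `E`. -/
def States (E : Set (Fin m →₀ ℕ)) : Finset (Fin m → Fin 3) := Finset.univ.filter (OkS E)

lemma mem_States {E : Set (Fin m →₀ ℕ)} {s : Fin m → Fin 3} : s ∈ States E ↔ OkS E s := by
  simp [States]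

/-- The Hilbert series. -/
def HS (E : Set (Fin m →₀ ℕ)) : PowerSeries ℤ := PowerSeries.mk fun j => ((Std E j).card : ℤ)

/-- The numerator of the Hilbert series. -/
def KP (E : Set (Fin m →₀ ℕ)) : Polynomial ℤ := ∑ s ∈ States E, ∏ i, gP (s i)

lemma HS_eq {E : Set (Fin m →₀ ℕ)} (hE : ∀ e ∈ E, ∀ i, e i ≤ 2) :
    HS E = ∑ s ∈ States E, ∏ i, fS (s i) := by
  classical
  ext j
  rw [HS, PowerSeries.coeff_mk, map_sum]
  have h1 : ∀ s ∈ States E, PowerSeries.coeff j (∏ i, fS (s i)) =
      ∑ l ∈ finsuppAntidiag Finset.univ j, if s = (fun i => cl (l i)) then (1 : ℤ) else 0 := by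
    intro s _
    rw [PowerSeries.coeff_prod]
    refine Finset.sum_congr rfl fun l _ => ?_
    by_cases h : s = fun i => cl (l i)
    · rw [if_pos h]
      refine Finset.prod_eq_one fun i _ => ?_
      rw [fS, PowerSeries.coeff_mk, if_pos (congrFun h i).symm]
    · rw [if_neg h]
      have : ∃ i, s i ≠ cl (l i) := by
        by_contra hc
        push Not at hc
        exact h (funext hc)
      obtain ⟨i, hi⟩ := this
      refine Finset.prod_eq_zero (Finset.mem_univ i) ?_
      rw [fS, PowerSeries.coeff_mk, if_neg (fun h => hi h.symm)]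
  rw [Finset.sum_congr rfl h1, Finset.sum_comm]
  have h2 : ∀ l ∈ finsuppAntidiag (Finset.univ : Finset (Fin m)) j,
      (∑ s ∈ States E, if s = (fun i => cl (l i)) then (1 : ℤ) else 0) =
      if OkE E l then 1 else 0 := by
    intro l _
    rw [Finset.sum_ite_eq']
    by_cases h : OkE E l
    · rw [if_pos h, if_pos (mem_States.2 ((okE_iff hE l).1 h))]
    · rw [if_neg h, if_neg (fun h' => h ((okE_iff hE l).2 (mem_States.1 h')))]
  rw [Finset.sum_congr rfl h2, Finset.sum_boole]
  rfl

lemma mul_HS {E : Set (Fin m →₀ ℕ)} (hE : ∀ e ∈ E, ∀ i, e i ≤ 2) :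
    (1 - PowerSeries.X) ^ m * HS E = (KP E : PowerSeries ℤ) := by
  have h1 : (KP E : PowerSeries ℤ) = ∑ s ∈ States E, ∏ i, (gP (s i) : PowerSeries ℤ) := by
    have := map_sum (Polynomial.coeToPowerSeries.ringHom (R := ℤ))
      (fun s : Fin m → Fin 3 => ∏ i, gP (s i)) (States E)
    simp only [map_prod] at this
    exact this
  rw [h1, HS_eq hE, Finset.mul_sum]
  refine Finset.sum_congr rfl fun s _ => ?_
  have h2 : (1 - PowerSeries.X : PowerSeries ℤ) ^ m = ∏ _i : Fin m, (1 - PowerSeries.X) := by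
    rw [Finset.prod_const, Finset.card_univ, Fintype.card_fin]
  rw [h2, ← Finset.prod_mul_distrib]
  exact Finset.prod_congr rfl fun i _ => mul_fS (s i)

lemma HS_zero {E : Set (Fin m →₀ ℕ)} (hE : ∀ e ∈ E, ∑ i, e i = 2) :
    PowerSeries.constantCoeff (HS E) = 1 := by
  classical
  rw [← PowerSeries.coeff_zero_eq_constantCoeff_apply, HS, PowerSeries.coeff_mk]
  have : Std E 0 = {0} := by
    ext α
    rw [mem_Std, Finset.mem_singleton]
    constructor
    · rintro ⟨h, -⟩
      ext i
      exact (Finset.sum_eq_zero_iff.1 h) i (Finset.mem_univ i)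
    · rintro rfl
      refine ⟨by simp, fun e he hle => ?_⟩
      have h1 := hE e he
      have h2 : ∑ i, e i = 0 := Finset.sum_eq_zero fun i _ => Nat.le_zero.1 (hle i)
      omega
  rw [this]
  simp

lemma HS_one {E : Set (Fin m →₀ ℕ)} (hE : ∀ e ∈ E, ∑ i, e i = 2) :
    PowerSeries.coeff 1 (HS E) = m := by
  classical
  rw [HS, PowerSeries.coeff_mk]
  have h1 : Std E 1 = finsuppAntidiag Finset.univ 1 := by
    ext α
    rw [mem_Std, Finset.mem_finsuppAntidiag]
    simp only [Finset.subset_univ, and_true]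
    refine ⟨fun h => h.1, fun h => ⟨h, fun e he hle => ?_⟩⟩
    have h1 := hE e he
    have h2 : ∑ i, e i ≤ ∑ i, α i := Finset.sum_le_sum fun i _ => hle i
    have h3 : ∑ i, α i = 1 := h
    omega
  have h2 : PowerSeries.coeff 1 (∏ _i : Fin m, (PowerSeries.mk fun _ => (1 : ℤ))) =
      ((finsuppAntidiag (Finset.univ : Finset (Fin m)) 1).card : ℤ) := by
    rw [PowerSeries.coeff_prod]
    simp
  rw [h1, ← h2, Finset.prod_const, Finset.card_univ, Fintype.card_fin, PowerSeries.coeff_one_pow]
  simp

/-- The number of variables is the pole order plus the linear coefficient. -/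
lemma card_vars {E : Set (Fin m →₀ ℕ)} (hE : ∀ e ∈ E, ∑ i, e i = 2) {d : ℕ} {h : Polynomial ℤ}
    (hd : (1 - PowerSeries.X) ^ d * HS E = (h : PowerSeries ℤ)) :
    (m : ℤ) - d = h.coeff 1 := by
  have h1 := congrArg (PowerSeries.coeff 1) hd
  rw [PowerSeries.coeff_one_mul, HS_zero hE, HS_one hE, PowerSeries.coeff_one_pow,
    Polynomial.coeff_coe] at h1
  simp at h1
  linarith

/-- If the numerator is divisible by `(1 - X) ^ 2` exactly, then two variables meet all the
monomials of `E`. -/
lemma exists_cover {E : Set (Fin m →₀ ℕ)} (hE : ∀ e ∈ E, ∑ i, e i = 2)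
    {h : Polynomial ℤ} (h1 : h.eval 1 ≠ 0) (hm : 2 ≤ m)
    (hK : KP E = (1 - Polynomial.X) ^ 2 * h) :
    ∃ a b : Fin m, a ≠ b ∧ ∀ e ∈ E, 1 ≤ e a ∨ 1 ≤ e b := by
  classical
  have hE2 : ∀ e ∈ E, ∀ i, e i ≤ 2 := by
    intro e he i
    rw [← hE e he]
    exact Finset.single_le_sum (f := fun i => e i) (fun _ _ => Nat.zero_le _) (Finset.mem_univ i)
  by_contra hc
  push Not at hc
  have hdvd : (1 - Polynomial.X) ^ 3 ∣ KP E := by
    refine Finset.dvd_sum fun s hs => ?_
    have hs' := mem_States.1 hs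
    set T : Finset (Fin m) := Finset.univ.filter fun i => s i ≠ 2 with hT
    have hcard : 3 ≤ T.card := by
      by_contra hlt
      obtain ⟨U, hTU, hU⟩ := Finset.exists_superset_card_eq (s := T) (n := 2) (by omega)
        (by rw [Fintype.card_fin]; exact hm)
      obtain ⟨a, b, hab, rfl⟩ := Finset.card_eq_two.1 hU
      obtain ⟨e, he, ha, hb⟩ := hc a b hab
      obtain ⟨i, hi⟩ := hs' e he
      have h2 := hE2 e he i
      have hiT : i ∈ T := by
        rw [hT, Finset.mem_filter]
        refine ⟨Finset.mem_univ i, fun h => ?_⟩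
        rw [h] at hi
        have : ((2 : Fin 3) : ℕ) = 2 := rfl
        omega
      have := hTU hiT
      rw [Finset.mem_insert, Finset.mem_singleton] at this
      rcases this with rfl | rfl
      · omega
      · omega
    have h3 : ∏ i ∈ T, (1 - Polynomial.X : Polynomial ℤ) ∣ ∏ i ∈ T, gP (s i) := by
      refine Finset.prod_dvd_prod_of_dvd _ _ fun i hi => ?_
      rw [hT, Finset.mem_filter] at hi
      have h4 : s i = 0 ∨ s i = 1 := by
        have := hi.2
        generalize s i = t at this
        fin_cases t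
        · exact Or.inl rfl
        · exact Or.inr rfl
        · exact absurd rfl this
      rcases h4 with h4 | h4
      · rw [h4]
        exact dvd_rfl
      · rw [h4]
        exact Dvd.intro_left _ rfl
    rw [Finset.prod_const] at h3
    refine dvd_trans (pow_dvd_pow _ hcard) (dvd_trans h3 ?_)
    exact Finset.prod_dvd_prod_of_subset _ _ _ (Finset.subset_univ T)
  rw [hK] at hdvd
  obtain ⟨q, hq⟩ := hdvd
  have hne : (1 - Polynomial.X : Polynomial ℤ) ^ 2 ≠ 0 := by
    apply pow_ne_zero
    intro h0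
    have := congrArg (Polynomial.eval 0) h0
    simp at this
  have h5 : h = (1 - Polynomial.X) * q := by
    apply mul_left_cancel₀ hne
    rw [hq]
    ring
  apply h1
  rw [h5]
  simp

end Pool.Agent.TH884.KF

end
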